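import Pool.Agent.Helper54.S4.Stmts

namespace Pool.Agent.Helper54.S4

open Finset Pool.Agent.Helper54.SP

theorem flip_zero (X : ℕ → ℕ → ℝ) (g : List ℕ) (hg : g.length = 4) (x : ℕ) (hx : x ∈ g) :
    dt 5 X (g ++ [x]) = 0 := by
  match g, hg with
  | [g0, g1, g2, g3], _ =>
    unfold dt
    simp only [List.mem_cons, List.not_mem_nil, or_false] at hx
    rcases hx with rfl | rfl | rfl | rfl
    · apply Matrix.det_zero_of_row_eq (i := (0 : Fin 5)) (j := (4 : Fin 5)) (by decide)
      rfl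
    · apply Matrix.det_zero_of_row_eq (i := (1 : Fin 5)) (j := (4 : Fin 5)) (by decide)
      rfl
    · apply Matrix.det_zero_of_row_eq (i := (2 : Fin 5)) (j := (4 : Fin 5)) (by decide)
      rfl
    · apply Matrix.det_zero_of_row_eq (i := (3 : Fin 5)) (j := (4 : Fin 5)) (by decide)
      rfl

theorem flip_aux (N : ℕ) (X : ℕ → ℕ → ℝ) (g : List ℕ) (hg : g.length = 4)
    (hos : OS 5 X (N + 2) g) (w0 w1 w2 w3 u v : ℕ) (h0 : w0 < N + 2) (h1 : w1 < N + 2)
    (h2 : w2 < N + 2) (h3 : w3 < N + 2) (hu : u ∈ g) (hv : v ∈ g)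
    (hnd : [u, v, w1, w2, w3].Nodup) (c0 c1 c2 c3 : ℝ) (hc0 : c0 ≤ 0) (hc1 : c1 < 0)
    (hc2 : c2 < 0) (hc3 : c3 < 0)
    (hrel : c0 * dt 5 X (g ++ [w0]) + c1 * dt 5 X (g ++ [w1]) + c2 * dt 5 X (g ++ [w2]) +
      c3 * dt 5 X (g ++ [w3]) = 0) : False := by
  have hw : ∃ w, w < N + 2 ∧ w ∉ g ∧ (w = w1 ∨ w = w2 ∨ w = w3) := by
    by_contra hcon
    push Not at hcon
    have m1 : w1 ∈ g := by
      by_contra h
      exact (hcon w1 h1 h).1 rfl
    have m2 : w2 ∈ g := by
      by_contra h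
      exact (hcon w2 h2 h).2.1 rfl
    have m3 : w3 ∈ g := by
      by_contra h
      exact (hcon w3 h3 h).2.2 rfl
    have hsub : [u, v, w1, w2, w3].toFinset ⊆ g.toFinset := by
      intro x hx
      simp only [List.mem_toFinset, List.mem_cons, List.not_mem_nil, or_false] at hx ⊢
      rcases hx with rfl | rfl | rfl | rfl | rfl <;> assumption
    have hcard := Finset.card_le_card hsub
    rw [List.toFinset_card_of_nodup hnd] at hcard
    have := List.toFinset_card_le g
    simp only [List.length_cons, List.length_nil] at hcard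
    omega
  obtain ⟨w, hwN, hwg, hww⟩ := hw
  have hpos : ∀ x, x < N + 2 → 0 ≤ dt 5 X (g ++ [x]) * dt 5 X (g ++ [w]) := by
    intro x hx
    by_cases hxg : x ∈ g
    · rw [flip_zero X g hg x hxg, zero_mul]
    · exact (hos x w hx hwN hxg hwg).le
  have hww' := hos w w hwN hwN hwg hwg
  have p0 := hpos w0 h0
  have p1 := hpos w1 h1
  have p2 := hpos w2 h2
  have p3 := hpos w3 h3
  have e : c0 * (dt 5 X (g ++ [w0]) * dt 5 X (g ++ [w])) +
      c1 * (dt 5 X (g ++ [w1]) * dt 5 X (g ++ [w])) +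
      c2 * (dt 5 X (g ++ [w2]) * dt 5 X (g ++ [w])) +
      c3 * (dt 5 X (g ++ [w3]) * dt 5 X (g ++ [w])) = 0 := by
    have := congrArg (fun t => t * dt 5 X (g ++ [w])) hrel
    simp only [zero_mul] at this
    linarith
  have q0 : c0 * (dt 5 X (g ++ [w0]) * dt 5 X (g ++ [w])) ≤ 0 := mul_nonpos_of_nonpos_of_nonneg hc0 p0
  have q1 : c1 * (dt 5 X (g ++ [w1]) * dt 5 X (g ++ [w])) ≤ 0 :=
    mul_nonpos_of_nonpos_of_nonneg hc1.le p1
  have q2 : c2 * (dt 5 X (g ++ [w2]) * dt 5 X (g ++ [w])) ≤ 0 :=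
    mul_nonpos_of_nonpos_of_nonneg hc2.le p2
  have q3 : c3 * (dt 5 X (g ++ [w3]) * dt 5 X (g ++ [w])) ≤ 0 :=
    mul_nonpos_of_nonpos_of_nonneg hc3.le p3
  rcases hww with rfl | rfl | rfl
  · have := mul_neg_of_neg_of_pos hc1 hww'
    linarith
  · have := mul_neg_of_neg_of_pos hc2 hww'
    linarith
  · have := mul_neg_of_neg_of_pos hc3 hww'
    linarith

theorem st_FLIP (hR : ST_REL) : ST_FLIP := by
  intro N X p q r s hnd hp hq hr hs hos hpA hpB hrA hrB hpr
  have hbr : ∀ a b c, br N 2 X a b c = dt 5 X [a, b, c, N, N + 1] := fun a b c => rfl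
  simp only [hbr] at hpr ⊢
  set P1 := dt 5 X [p, q, r, N, N + 1] with hP1
  set P2 := dt 5 X [p, r, s, N, N + 1] with hP2
  set U := dt 5 X [q, r, s, N, N + 1] with hU
  set V := dt 5 X [p, q, s, N, N + 1] with hV
  set S0 := dt 5 X [p, q, r, s, N] with hS0
  set S1 := dt 5 X [p, q, r, s, N + 1] with hS1
  simp only [List.nodup_cons, List.mem_cons, List.not_mem_nil, or_false, not_or,
    List.nodup_nil, and_true, not_false_eq_true] at hnd
  obtain ⟨⟨hpq, hpr', hps⟩, ⟨hqr, hqs⟩, hrs⟩ := hnd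
  have hSS : 0 < S0 * S1 := hos N (N + 1) (by omega) (by omega)
    (by simp only [List.mem_cons, List.not_mem_nil, or_false, not_or]; omega)
    (by simp only [List.mem_cons, List.not_mem_nil, or_false, not_or]; omega)
  have hP1ne : P1 ≠ 0 := by
    intro h
    rw [h, zero_mul] at hpr
    exact lt_irrefl _ hpr
  have hS0ne : S0 ≠ 0 := by
    intro h
    rw [h, zero_mul] at hSS
    exact lt_irrefl _ hSS
  have hrel : ∀ g : List ℕ, g.length = 4 → U * dt 5 X (g ++ [p]) - P2 * dt 5 X (g ++ [q]) +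
      V * dt 5 X (g ++ [r]) - P1 * dt 5 X (g ++ [s]) + S1 * dt 5 X (g ++ [N]) -
      S0 * dt 5 X (g ++ [N + 1]) = 0 := fun g hg => hR X p q r s N (N + 1) g hg
  have hP11 : 0 < P1 * P1 := mul_self_pos.2 hP1ne
  have hdist : ∀ a b c d e : ℕ, a < N → c < N → d < N → a ≠ c → a ≠ d → c ≠ d →
      ((b = N ∧ e = N + 1) ∨ (b = N + 1 ∧ e = N)) → [a, b, c, d, e].Nodup := by
    intro a b c d e ha hc hd h1 h2 h3 h4
    simp only [List.nodup_cons, List.mem_cons, List.not_mem_nil, or_false, not_or,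
      List.nodup_nil, and_true, not_false_eq_true]
    omega
  have hsg : 0 < P1 * S0 ∨ P1 * S0 < 0 := by
    rcases lt_trichotomy (P1 * S0) 0 with h | h | h
    · exact Or.inr h
    · exact absurd h (mul_ne_zero hP1ne hS0ne)
    · exact Or.inl h
  have hS1 : ∀ h : P1 * S0 < 0, P1 * S1 < 0 := by
    intro h
    have h1 : (P1 * S0) * (P1 * S1) = (P1 * P1) * (S0 * S1) := by ring
    have h2 := mul_pos hP11 hSS
    rw [← h1] at h2
    by_contra hcon
    push Not at hcon
    have := mul_nonpos_of_nonpos_of_nonneg h.le hcon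
    linarith
  constructor
  · by_contra hcon
    push Not at hcon
    rcases hsg with h | h
    · obtain ⟨g, hg, -, hgr, hgA, hgo⟩ := hrA
      have e := hrel g hg
      rw [flip_zero X g hg r hgr, flip_zero X g hg N hgA] at e
      refine flip_aux N X g hg hgo p q s (N + 1) r N (by omega) (by omega) (by omega) (by omega)
        hgr hgA (hdist r N q s (N + 1) hr hq hs (Ne.symm hqr) hrs hqs (Or.inl ⟨rfl, rfl⟩))
        (P1 * U) (-(P1 * P2)) (-(P1 * P1)) (-(P1 * S0)) hcon (by linarith) (by linarith)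
        (by linarith) ?_
      have := congrArg (fun t => P1 * t) e
      simp only [mul_zero] at this
      linarith
    · obtain ⟨g, hg, -, hgr, hgA, hgo⟩ := hrB
      have e := hrel g hg
      rw [flip_zero X g hg r hgr, flip_zero X g hg (N + 1) hgA] at e
      refine flip_aux N X g hg hgo p q s N r (N + 1) (by omega) (by omega) (by omega) (by omega)
        hgr hgA (hdist r (N + 1) q s N hr hq hs (Ne.symm hqr) hrs hqs (Or.inr ⟨rfl, rfl⟩))
        (P1 * U) (-(P1 * P2)) (-(P1 * P1)) (P1 * S1) hcon (by linarith) (by linarith)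
        (hS1 h) ?_
      have := congrArg (fun t => P1 * t) e
      simp only [mul_zero] at this
      linarith
  · by_contra hcon
    push Not at hcon
    rcases hsg with h | h
    · obtain ⟨g, hg, -, hgr, hgA, hgo⟩ := hpA
      have e := hrel g hg
      rw [flip_zero X g hg p hgr, flip_zero X g hg N hgA] at e
      refine flip_aux N X g hg hgo r q s (N + 1) p N (by omega) (by omega) (by omega) (by omega)
        hgr hgA (hdist p N q s (N + 1) hp hq hs hpq hps hqs (Or.inl ⟨rfl, rfl⟩))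
        (P1 * V) (-(P1 * P2)) (-(P1 * P1)) (-(P1 * S0)) hcon (by linarith) (by linarith)
        (by linarith) ?_
      have := congrArg (fun t => P1 * t) e
      simp only [mul_zero] at this
      linarith
    · obtain ⟨g, hg, -, hgr, hgA, hgo⟩ := hpB
      have e := hrel g hg
      rw [flip_zero X g hg p hgr, flip_zero X g hg (N + 1) hgA] at e
      refine flip_aux N X g hg hgo r q s N p (N + 1) (by omega) (by omega) (by omega) (by omega)
        hgr hgA (hdist p (N + 1) q s N hp hq hs hpq hps hqs (Or.inr ⟨rfl, rfl⟩))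
        (P1 * V) (-(P1 * P2)) (-(P1 * P1)) (P1 * S1) hcon (by linarith) (by linarith)
        (hS1 h) ?_
      have := congrArg (fun t => P1 * t) e
      simp only [mul_zero] at this
      linarith

end Pool.Agent.Helper54.S4
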