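import Pool.Agent.Helper54.S4.Stmts

namespace Pool.Agent.Helper54.S4

open Finset Pool.Agent.Helper54.SP

theorem go4_s3 (h1 : ST_PT4) (Γ : List Gt) (nw j a b c : ℕ) (hab : a < b) (hbc : b < c)
    (hc : c < 6) : s3 Γ nw (pt j a) (pt j b) (pt j c) = tb4 (tj j) a b c := by
  obtain ⟨ga1, la1, ta1, na1⟩ := h1.1 j a (by omega)
  obtain ⟨gb1, lb1, tb1, nb1⟩ := h1.1 j b (by omega)
  obtain ⟨gc1, lc1, tc1, nc1⟩ := h1.1 j c hc
  unfold s3
  rw [if_neg (by omega), if_neg (by omega), if_neg (by omega), if_neg (by omega), la1, lb1, lc1,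
    tc1]

theorem st_GO4 (h1 : ST_PT4) (h2 : ST_AL4) : ST_GO4 := by
  intro Γ nw j a b c x hj hab hbc hc hx hxg
  obtain ⟨ga1, la1, ta1, na1⟩ := h1.1 j a (by omega)
  obtain ⟨gb1, lb1, tb1, nb1⟩ := h1.1 j b (by omega)
  obtain ⟨gc1, lc1, tc1, nc1⟩ := h1.1 j c hc
  have hcN : pt j c < N4 Γ := (h1.2.2.1 Γ (pt j c) nc1).2 (by rw [gc1]; omega)
  have pab : pt j a < pt j b := by unfold pt; omega
  have pbc : pt j b < pt j c := by unfold pt; omega
  have mono := h1.2.2.2.1
  have hs := go4_s3 h1 Γ nw j a b c hab hbc hc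
  unfold ch4
  by_cases hxN : x = N4 Γ
  · subst hxN
    rw [(h2 (c4 Γ nw) 0).2.1 _ _ _ _ pab pbc hcN]
    unfold c4
    rw [if_pos rfl, hs]
  · have hxg' : gr x ≠ j + 1 := by
      rcases hxg with h | h
      · exact absurd h hxN
      · exact h
    rcases Nat.lt_or_gt_of_ne hxg' with h | h
    · have hxa : x < pt j a := by
        by_contra hcon
        have := mono (pt j a) x (by omega)
        omega
      rw [(h2 (c4 Γ nw) 0).2.2.1 _ _ _ _ pab pbc hxa]
      unfold c4
      rw [if_neg (by omega)]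
      by_cases hx1 : x = 1
      · rw [if_pos hx1, hs, Bool.not_not]
      · rw [if_neg hx1, if_neg (by omega), if_neg (by omega), if_neg (by omega),
          if_pos (by omega), la1, lb1, lc1, tc1, Bool.not_not]
    · have hxc : pt j c < x := by
        by_contra hcon
        have := mono x (pt j c) (by omega)
        omega
      rw [(h2 (c4 Γ nw) 0).2.1 _ _ _ _ pab pbc hxc]
      unfold c4
      rw [if_neg hxN, if_neg (by omega), if_neg (by omega), if_pos (by omega), hs]

end Pool.Agent.Helper54.S4
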