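import Pool.Agent.Helper54.S4.Stmts
import Pool.Agent.Helper54.SP.Main

/-!
Assembly: hardness of `SPR_4` from the modules.
-/

namespace Pool.Agent.Helper54.S4

open Finset Pool.Agent.Helper54.SP Pool.Agent.Helper54.Poly

/-- the reduction -/
def mainG4 (D : List Bool → List Be) (u : List Bool) : List Bool :=
  icode (N4 (wiring (Kn (D u).length) (bil (D u))) + 2)
    (fac4 (wiring (Kn (D u).length) (bil (D u))) (nwr (Kn (D u).length) (bil (D u))))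

theorem main4_pt (hEK : ST_EK4) (hEF : ST_EF4) (hEI : ST_EI) (hEW : ST_EW) (hEB : ST_EB)
    (D : List Bool → List Be) (hD : PT D) : PT (mainG4 D) := by
  obtain ⟨h1, h2⟩ := hEB D hD
  obtain ⟨h3, h4⟩ := hEW _ _ h2 h1
  have h5 := hEF _ _ h3 h4
  have h6 := (hEK _ (fun _ : List Bool => (0 : ℕ)) (fun _ : List Bool => (0 : ℕ)) h3
    (PT.const 0) (PT.const 0)).2.2.2.2.2
  exact hEI _ _ (PT.add h6 (PT.const 2)) h5

theorem main4_sem (hRW : ST_RW) (hRS : ST_RS) (hRC : ST_RC) (hWWF : ST_WWF) (hWS : ST_WS)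
    (hWC : ST_WC) (hBW : ST_BW4) (hBN : ST_BN4) (hCOMP : ST_COMP4) (hSND : ST_SND4)
    (hFMEM : ST_FMEM) (hIJ : ST_IJ) (E : List Be) (hE : E ≠ []) (hB : BBelow E) :
    (∃ z : ℕ → ℝ, ∀ e ∈ E, BHolds z e) ↔
      icode (N4 (wiring (Kn E.length) (bil E)) + 2)
        (fac4 (wiring (Kn E.length) (bil E)) (nwr (Kn E.length) (bil E))) ∈ SPR 4 := by
  have hBV := hRW E hB
  have hWF := hWWF _ _ hBV
  have hV : Valid 4 (N4 (wiring (Kn E.length) (bil E)) + 2)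
      (fac4 (wiring (Kn E.length) (bil E)) (nwr (Kn E.length) (bil E))) := by
    intro f hf
    obtain ⟨h1, h2, -, h3, -⟩ := hFMEM _ _ _ f hf
    exact ⟨h1, h2, h3⟩
  constructor
  · intro hz
    obtain ⟨v, hv⟩ := hWC _ _ hBV (hRC E hE hB hz)
    exact ⟨_, _, hV, rfl, hCOMP _ _ v hWF hv⟩
  · rintro ⟨n, F, hVF, hc, hR⟩
    obtain ⟨h1, h2⟩ := hIJ 4 _ _ _ _ (by omega) (fun f hf => (hV f hf).1)
      (fun f hf => (hVF f hf).1) hc
    rw [← h1, ← h2] at hR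
    obtain ⟨v, hv⟩ := hSND _ _ hWF (hBW _ _ (hBN E)) hR
    exact hRS E hE hB (hWS _ _ v hBV hv)

theorem st_MAIN4 (hRD : ST_RD) (hRW : ST_RW) (hRS : ST_RS) (hRC : ST_RC) (hWWF : ST_WWF)
    (hWS : ST_WS) (hWC : ST_WC) (hBW : ST_BW4) (hBN : ST_BN4) (hCOMP : ST_COMP4)
    (hSND : ST_SND4) (hFMEM : ST_FMEM) (hIJ : ST_IJ) (hEK : ST_EK4) (hEF : ST_EF4)
    (hEI : ST_EI) (hEW : ST_EW) (hEB : ST_EB) : ST_MAIN4 := by
  rintro A ⟨f, ⟨hf⟩, hfA⟩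
  obtain ⟨D, hD, hDs⟩ := hRD
  have hG := main4_pt hEK hEF hEI hEW hEB D hD
  obtain ⟨hP⟩ := polytime_list (fun l : List Bool => l) (mainG4 D)
    (fun u => (mainG4 D u).reverse) (PT.reverse hG) (fun _ => rfl)
  refine ⟨mainG4 D ∘ f, Pool.Agent.Helper55.Compose.comp_polytime hf hP, fun u => ?_⟩
  rw [hfA]
  obtain ⟨h1, h2, h3⟩ := hDs (f u)
  rw [h3]
  exact main4_sem hRW hRS hRC hWWF hWS hWC hBW hBN hCOMP hSND hFMEM hIJ (D (f u)) h1 h2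

end Pool.Agent.Helper54.S4
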