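import Pool.Agent.Helper54.S4.Stmts

namespace Pool.Agent.Helper54.S4

open Finset Pool.Agent.Helper54.SP

theorem rel_lin (X : ℕ → ℕ → ℝ) (g : List ℕ) (hg : g.length = 4) :
    ∃ C : Fin 5 → ℝ, ∀ x, dt 5 X (g ++ [x]) = ∑ j : Fin 5, X x j * C j := by
  match g, hg with
  | [g0, g1, g2, g3], _ =>
    refine ⟨fun j => (-1) ^ (4 + (j : ℕ)) * Matrix.det
      (Matrix.of fun r c : Fin 4 => X ([g0, g1, g2, g3].getD r 0) ((j.succAbove c : Fin 5) : ℕ)),
      fun x => ?_⟩
    unfold dt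
    rw [Matrix.det_succ_row _ (Fin.last 4)]
    apply Finset.sum_congr rfl
    intro j _
    have h1 : (Matrix.of fun i j : Fin 5 => X (([g0, g1, g2, g3] ++ [x]).getD i 0) j)
        (Fin.last 4) j = X x j := rfl
    have h2 : (Matrix.of fun i j : Fin 5 => X (([g0, g1, g2, g3] ++ [x]).getD i 0) j).submatrix
        (Fin.last 4).succAbove j.succAbove =
        Matrix.of fun r c : Fin 4 => X ([g0, g1, g2, g3].getD r 0) ((j.succAbove c : Fin 5) : ℕ) := by
      ext r c
      fin_cases r <;> rfl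
    rw [h1, h2]
    simp only [Fin.val_last]
    ring

theorem st_REL : ST_REL := by
  intro X a b c d e f g hg
  obtain ⟨C, hC⟩ := rel_lin X g hg
  set D : ℕ → ℝ := fun x => dt 5 X (g ++ [x]) with hD
  let M : Matrix (Fin 6) (Fin 6) ℝ := Matrix.of fun i j : Fin 6 =>
    if (j : ℕ) < 5 then X ([a, b, c, d, e, f].getD i 0) j else D ([a, b, c, d, e, f].getD i 0)
  have hdet : M.det = 0 := by
    apply Matrix.exists_mulVec_eq_zero_iff.1
    refine ⟨fun j : Fin 6 => if h : (j : ℕ) < 5 then C ⟨j, h⟩ else -1, ?_, ?_⟩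
    · intro h
      have := congrFun h 5
      simp at this
    · ext i
      rw [Matrix.mulVec, dotProduct, Fin.sum_univ_castSucc]
      have h5 : M i (Fin.last 5) = D ([a, b, c, d, e, f].getD i 0) := by
        simp [M]
      have h6 : ∀ j : Fin 5, M i j.castSucc = X ([a, b, c, d, e, f].getD i 0) j := by
        intro j
        have : ((j.castSucc : Fin 6) : ℕ) < 5 := j.2
        simp only [M, Matrix.of_apply]
        rw [if_pos this]
        rfl
      have h7 : (∑ j : Fin 5, M i j.castSucc *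
          (if h : ((j.castSucc : Fin 6) : ℕ) < 5 then C ⟨(j.castSucc : Fin 6), h⟩ else -1)) =
          D ([a, b, c, d, e, f].getD i 0) := by
        rw [hD]
        simp only
        rw [hC]
        apply Finset.sum_congr rfl
        intro j _
        have : ((j.castSucc : Fin 6) : ℕ) < 5 := j.2
        rw [h6, dif_pos this]
        rfl
      have h8 : (if h : ((Fin.last 5 : Fin 6) : ℕ) < 5 then C ⟨(Fin.last 5 : Fin 6), h⟩ else -1)
          = -1 := by
        rw [dif_neg]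
        simp
      rw [h7, h5, h8]
      simp
  rw [Matrix.det_succ_column M (Fin.last 5)] at hdet
  have hsub : ∀ i : Fin 6, (M.submatrix i.succAbove (Fin.last 5).succAbove) =
      Matrix.of fun r c' : Fin 5 => X ([a, b, c, d, e, f].getD (i.succAbove r : Fin 6) 0) c' := by
    intro i
    ext r c'
    simp only [M, Matrix.submatrix_apply, Matrix.of_apply, Fin.succAbove_last]
    have : ((c'.castSucc : Fin 6) : ℕ) < 5 := c'.2
    rw [if_pos this]
    rfl
  have hent : ∀ i : Fin 6, M i (Fin.last 5) = D ([a, b, c, d, e, f].getD i 0) := by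
    intro i
    simp [M]
  simp only [hsub, hent] at hdet
  have e0 : Matrix.det (Matrix.of fun r c' : Fin 5 =>
      X ([a, b, c, d, e, f].getD ((0 : Fin 6).succAbove r : Fin 6) 0) c') =
      dt 5 X [b, c, d, e, f] := by
    unfold dt
    apply congrArg
    ext r c'
    fin_cases r <;> rfl
  have e1 : Matrix.det (Matrix.of fun r c' : Fin 5 =>
      X ([a, b, c, d, e, f].getD ((1 : Fin 6).succAbove r : Fin 6) 0) c') =
      dt 5 X [a, c, d, e, f] := by
    unfold dt
    apply congrArg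
    ext r c'
    fin_cases r <;> rfl
  have e2 : Matrix.det (Matrix.of fun r c' : Fin 5 =>
      X ([a, b, c, d, e, f].getD ((2 : Fin 6).succAbove r : Fin 6) 0) c') =
      dt 5 X [a, b, d, e, f] := by
    unfold dt
    apply congrArg
    ext r c'
    fin_cases r <;> rfl
  have e3 : Matrix.det (Matrix.of fun r c' : Fin 5 =>
      X ([a, b, c, d, e, f].getD ((3 : Fin 6).succAbove r : Fin 6) 0) c') =
      dt 5 X [a, b, c, e, f] := by
    unfold dt
    apply congrArg
    ext r c'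
    fin_cases r <;> rfl
  have e4 : Matrix.det (Matrix.of fun r c' : Fin 5 =>
      X ([a, b, c, d, e, f].getD ((4 : Fin 6).succAbove r : Fin 6) 0) c') =
      dt 5 X [a, b, c, d, f] := by
    unfold dt
    apply congrArg
    ext r c'
    fin_cases r <;> rfl
  have e5 : Matrix.det (Matrix.of fun r c' : Fin 5 =>
      X ([a, b, c, d, e, f].getD ((5 : Fin 6).succAbove r : Fin 6) 0) c') =
      dt 5 X [a, b, c, d, e] := by
    unfold dt
    apply congrArg
    ext r c'
    fin_cases r <;> rfl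
  have hsum : ∀ F : Fin 6 → ℝ, ∑ i, F i = F 0 + F 1 + F 2 + F 3 + F 4 + F 5 := by
    intro F
    simp only [Fin.sum_univ_succ, Fin.sum_univ_zero]
    simp only [add_assoc, add_zero]
    rfl
  rw [hsum, e0, e1, e2, e3, e4, e5] at hdet
  have d0 : [a, b, c, d, e, f].getD ((0 : Fin 6) : ℕ) 0 = a := rfl
  have d1 : [a, b, c, d, e, f].getD ((1 : Fin 6) : ℕ) 0 = b := rfl
  have d2 : [a, b, c, d, e, f].getD ((2 : Fin 6) : ℕ) 0 = c := rfl
  have d3 : [a, b, c, d, e, f].getD ((3 : Fin 6) : ℕ) 0 = d := rfl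
  have d4 : [a, b, c, d, e, f].getD ((4 : Fin 6) : ℕ) 0 = e := rfl
  have d5 : [a, b, c, d, e, f].getD ((5 : Fin 6) : ℕ) 0 = f := rfl
  rw [d0, d1, d2, d3, d4, d5] at hdet
  have p0 : ((-1 : ℝ)) ^ (((0 : Fin 6) : ℕ) + ((Fin.last 5 : Fin 6) : ℕ)) = -1 := by norm_num
  have p1 : ((-1 : ℝ)) ^ (((1 : Fin 6) : ℕ) + ((Fin.last 5 : Fin 6) : ℕ)) = 1 := by norm_num
  have p2 : ((-1 : ℝ)) ^ (((2 : Fin 6) : ℕ) + ((Fin.last 5 : Fin 6) : ℕ)) = -1 := by
    have : (((2 : Fin 6) : ℕ) + ((Fin.last 5 : Fin 6) : ℕ)) = 7 := rfl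
    rw [this]; norm_num
  have p3 : ((-1 : ℝ)) ^ (((3 : Fin 6) : ℕ) + ((Fin.last 5 : Fin 6) : ℕ)) = 1 := by
    have : (((3 : Fin 6) : ℕ) + ((Fin.last 5 : Fin 6) : ℕ)) = 8 := rfl
    rw [this]; norm_num
  have p4 : ((-1 : ℝ)) ^ (((4 : Fin 6) : ℕ) + ((Fin.last 5 : Fin 6) : ℕ)) = -1 := by
    have : (((4 : Fin 6) : ℕ) + ((Fin.last 5 : Fin 6) : ℕ)) = 9 := rfl
    rw [this]; norm_num
  have p5 : ((-1 : ℝ)) ^ (((5 : Fin 6) : ℕ) + ((Fin.last 5 : Fin 6) : ℕ)) = 1 := by
    have : (((5 : Fin 6) : ℕ) + ((Fin.last 5 : Fin 6) : ℕ)) = 10 := rfl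
    rw [this]; norm_num
  rw [p0, p1, p2, p3, p4, p5] at hdet
  change _ * D a - _ * D b + _ * D c - _ * D d + _ * D e - _ * D f = 0
  linarith

end Pool.Agent.Helper54.S4
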