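import Pool.Agent.Helper54.S4.Stmts

namespace Pool.Agent.Helper54.S4

open Finset Filter Pool.Agent.Helper54.SP

theorem stb_lin (A B : ℝ) (hA : 0 < A) : ∀ᶠ b : ℝ in atTop, 0 < A * b + B := by
  have h : Tendsto (fun b : ℝ => A * b) atTop atTop := tendsto_id.const_mul_atTop hA
  exact (tendsto_atTop_add_const_right atTop B h).eventually_gt_atTop 0

theorem stb_plane (x y : ℕ → ℝ) (t : ℝ) (p q r s : ℕ) :
    QQ x y (fun p => hX x p - t * hE p) p q r s = 0 := by
  unfold QQ DD
  ring

theorem stb_ql (x y α β : ℕ → ℝ) (b : ℝ) (p q r s : ℕ) :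
    QQ x y (fun p => b * α p + β p) p q r s =
      QQ x y α p q r s * b + QQ x y β p q r s := by
  unfold QQ
  ring

theorem stb_D3 (m : ℕ) (x ξ y : ℕ → ℝ) (c k : ℝ) (i j l : ℕ) :
    DD (xn m x ξ c k) y (pt m i) (pt m j) (pt m l) = c * D3 ξ (fun i => y (pt m i)) i j l := by
  have hx : ∀ i, xn m x ξ c k (pt m i) = k + c * ξ i := by
    intro i
    unfold xn pt
    rw [if_neg (by omega)]
    have : 3 + 6 * m + i - (3 + 6 * m) = i := by omega
    rw [this]
  have h0 : ∀ i, pt m i ≠ 0 := by
    intro i
    unfold pt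
    omega
  unfold DD hX hY hE D3
  rw [if_neg (h0 i), if_neg (h0 j), if_neg (h0 l), if_neg (h0 i), if_neg (h0 j), if_neg (h0 l),
    if_neg (h0 i), if_neg (h0 j), if_neg (h0 l), hx, hx, hx]
  ring

theorem stb_D0 (m : ℕ) (x ξ y : ℕ → ℝ) (c k : ℝ) (i j : ℕ) :
    DD (xn m x ξ c k) y 0 (pt m i) (pt m j) = c * (ξ j - ξ i) := by
  have hx : ∀ i, xn m x ξ c k (pt m i) = k + c * ξ i := by
    intro i
    unfold xn pt
    rw [if_neg (by omega)]
    have : 3 + 6 * m + i - (3 + 6 * m) = i := by omega
    rw [this]
  have h0 : ∀ i, pt m i ≠ 0 := by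
    intro i
    unfold pt
    omega
  unfold DD hX hY hE
  rw [if_neg (h0 i), if_neg (h0 j), if_neg (h0 i), if_neg (h0 j), hx, hx]
  simp only [if_true]
  rw [if_neg (h0 i), if_neg (h0 j)]
  ring

theorem stb_sb (b : Bool) : sb (!b) = -sb b := by
  cases b <;> simp [sb]

theorem stb_ev (n : ℕ) (P : ℕ → ℕ → ℕ → ℕ → ℝ → Prop)
    (h : ∀ p q r s, p < n → q < n → r < n → s < n → ∀ᶠ b : ℝ in atTop, P p q r s b) :
    ∀ᶠ b : ℝ in atTop, ∀ p q r s, p < n → q < n → r < n → s < n → P p q r s b := by
  have h1 : ∀ᶠ b : ℝ in atTop, ∀ p ∈ range n, ∀ q ∈ range n, ∀ r ∈ range n, ∀ s ∈ range n,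
      P p q r s b := by
    rw [Filter.eventually_all_finset]
    intro p hp
    rw [Filter.eventually_all_finset]
    intro q hq
    rw [Filter.eventually_all_finset]
    intro r hr
    rw [Filter.eventually_all_finset]
    intro s hs
    exact h p q r s (mem_range.1 hp) (mem_range.1 hq) (mem_range.1 hr) (mem_range.1 hs)
  filter_upwards [h1] with b hb p q r s hp hq hr hs
  exact hb p (mem_range.2 hp) q (mem_range.2 hq) r (mem_range.2 hr) s (mem_range.2 hs)

theorem st_STB (h1 : ST_PT4) (h2 : ST_LV4) : ST_STB := by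
  intro Γ nw y hWF hY m x z ξ h c k hm hSt hξ0 hξ hGA hh hT hL hV
  obtain ⟨hlv0, hlvp, hlv2, hlvi, hlvg, hlvw⟩ := h2 Γ nw hWF
  have hmono := h1.2.2.2.1
  set X := xn m x ξ c k with hX'
  have hxo : ∀ p, p < 3 + 6 * m → X p = x p := fun p hp => by
    rw [hX']
    unfold xn
    rw [if_pos hp]
  have hxn : ∀ i, X (pt m i) = k + c * ξ i := by
    intro i
    rw [hX']
    unfold xn pt
    rw [if_neg (by omega)]
    have : 3 + 6 * m + i - (3 + 6 * m) = i := by omega
    rw [this]
  have hzo : ∀ b p, p < 3 + 6 * m → zn m x ξ z h c k b p = z p := fun b p hp => by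
    unfold zn
    rw [if_pos hp]
  have hzn : ∀ b i, zn m x ξ z h c k b (pt m i) = b * (X (pt m i) - k / 2) + h i := by
    intro b i
    unfold zn
    rw [if_neg (by unfold pt; omega)]
    have : pt m i - (3 + 6 * m) = i := by unfold pt; omega
    rw [this]
  have hnew : ∀ s, 3 + 6 * m ≤ s → s < 3 + 6 * (m + 1) → ∃ i, i < 6 ∧ s = pt m i := by
    intro s hs1 hs2
    exact ⟨s - (3 + 6 * m), by omega, by unfold pt; omega⟩
  have hmN : 3 + 6 * (m + 1) ≤ N4 Γ := by
    unfold N4
    omega
  have hXX : ∀ p, p < 3 + 6 * m → hX X p = hX x p := by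
    intro p hp
    unfold hX
    rw [hxo p hp]
  have hDo : ∀ p q r, p < 3 + 6 * m → q < 3 + 6 * m → r < 3 + 6 * m →
      DD X y p q r = DD x y p q r := by
    intro p q r hp hq hr
    unfold DD
    rw [hXX p hp, hXX q hq, hXX r hr]
  have hξm : ∀ i j, i < j → j < 6 → ξ i < ξ j := by
    intro i j hij hj
    induction j with
    | zero => omega
    | succ j ih =>
      rcases Nat.lt_succ_iff_lt_or_eq.1 hij with h | h
      · exact (ih h (by omega)).trans (hξ j (by omega))
      · subst h
        exact hξ i (by omega)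
  have hξp : ∀ i, i < 6 → 0 < ξ i := by
    intro i hi
    rcases Nat.eq_zero_or_pos i with h | h
    · subst h
      exact hξ0
    · exact hξ0.trans (hξm 0 i h hi)
  have hk : ∀ i, i < 6 → k < X (pt m i) := by
    intro i hi
    rw [hxn]
    have := mul_pos hGA.c0 (hξp i hi)
    linarith
  have hgo : ∀ p, p < 3 + 6 * m → gr p < m + 1 := by
    intro p hp
    have := hmono p (3 + 6 * m - 1) (by omega)
    unfold gr at this ⊢
    omega
  have hgn : ∀ i, i < 6 → gr (pt m i) = m + 1 := fun i hi => (h1.1 m i hi).1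
  -- the three-point signs
  have T3 : ∀ p q r, p ≠ 1 → q ≠ 1 → p < q → q < r → r < 3 + 6 * (m + 1) →
      0 < sb (s3 Γ nw p q r) * DD X y p q r := by
    intro p q r hp1 hq1 hpq hqr hr
    by_cases hrn : r < 3 + 6 * m
    · rw [hDo p q r (by omega) (by omega) hrn]
      exact hSt.t3 p q r hp1 hq1 hpq hqr hrn
    · obtain ⟨l, hl, rfl⟩ := hnew r (by omega) hr
      by_cases hqn : q < 3 + 6 * m
      · have hs : s3 Γ nw p q (pt m l) = decide (lv Γ nw q < lv Γ nw p) := by
          unfold s3
          by_cases hp0 : p = 0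
          · subst hp0
            rw [if_pos rfl]
            have := hlv0 q (by omega) (by omega)
            rw [decide_eq_true hq1, decide_eq_true this]
          · rw [if_neg hp0, if_neg hp1, if_pos]
            rw [hgn l hl]
            exact hgo q hqn
        rw [hs]
        exact hGA.p1 p q l hp1 hq1 hpq hqn hl
      · obtain ⟨j, hj, rfl⟩ := hnew q (by omega) (by omega)
        have hjl : j < l := by unfold pt at hqr; omega
        by_cases hpn : p < 3 + 6 * m
        · have hs : s3 Γ nw p (pt m j) (pt m l) = true := by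
            unfold s3
            by_cases hp0 : p = 0
            · rw [if_pos hp0, decide_eq_true hq1]
            · rw [if_neg hp0, if_neg hp1, if_neg, if_pos]
              · rw [hgn j hj]
                exact hgo p hpn
              · rw [hgn j hj, hgn l hl]
                omega
          rw [hs]
          have := hGA.p2 p j l hp1 hpn hjl hl
          simpa [sb] using this
        · obtain ⟨i, hi, rfl⟩ := hnew p (by omega) (by omega)
          have hij : i < j := by unfold pt at hpq; omega
          have hs : s3 Γ nw (pt m i) (pt m j) (pt m l) = tb4 (tj m) i j l := by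
            obtain ⟨_, li, ti, ni⟩ := h1.1 m i hi
            obtain ⟨_, lj, tj', nj⟩ := h1.1 m j hj
            obtain ⟨_, ll, tl, nl⟩ := h1.1 m l hl
            unfold s3
            rw [if_neg (by omega), if_neg (by omega), if_neg (by rw [hgn j hj, hgn l hl]; omega),
              if_neg (by rw [hgn i hi, hgn j hj]; omega), li, lj, ll, tl]
          rw [hs, hX', stb_D3]
          have := mul_pos hGA.c0 (hT i j l hij hjl hl)
          linarith
  -- the slope
  let α : ℕ → ℝ := fun p => if p < 3 + 6 * m then 0 else X p - k / 2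
  let β : ℕ → ℝ := fun p => if p < 3 + 6 * m then z p else h (p - (3 + 6 * m))
  have hZ : ∀ b, zn m x ξ z h c k b = fun p => b * α p + β p := by
    intro b
    funext p
    simp only [α, β]
    unfold zn
    split_ifs
    · ring
    · rfl
  have hαo : ∀ p, p < 3 + 6 * m → α p = 0 := fun p hp => if_pos hp
  have hαn : ∀ i, α (pt m i) = hX X (pt m i) - k / 2 * hE (pt m i) := by
    intro i
    have h0 : pt m i ≠ 0 := by unfold pt; omega
    simp only [α]
    rw [if_neg (by unfold pt; omega)]
    unfold hX hE
    rw [if_neg h0, if_neg h0]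
    ring
  have hβo : ∀ p, p < 3 + 6 * m → β p = z p := fun p hp => if_pos hp
  have hβn : ∀ i, β (pt m i) = h i := by
    intro i
    simp only [β]
    rw [if_neg (by unfold pt; omega)]
    have : pt m i - (3 + 6 * m) = i := by unfold pt; omega
    rw [this]
  have key : ∀ p q r s, p < 3 + 6 * (m + 1) → q < 3 + 6 * (m + 1) → r < 3 + 6 * (m + 1) →
      s < 3 + 6 * (m + 1) → ∀ᶠ b : ℝ in atTop, p ≠ 1 → q ≠ 1 → p < q → q < r → r < s →
      0 < sb (c4 Γ nw p q r s) * QQ X y (zn m x ξ z h c k b) p q r s := by
    intro p q r s hp hq hr hs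
    by_cases hcond : p ≠ 1 ∧ q ≠ 1 ∧ p < q ∧ q < r ∧ r < s
    swap
    · filter_upwards with b h1 h2 h3 h4 h5
      exact absurd ⟨h1, h2, h3, h4, h5⟩ hcond
    obtain ⟨hp1, hq1, hpq, hqr, hrs⟩ := hcond
    have hsN : s ≠ N4 Γ := by omega
    have red : (0 < sb (c4 Γ nw p q r s) * QQ X y α p q r s ∨
        (QQ X y α p q r s = 0 ∧ 0 < sb (c4 Γ nw p q r s) * QQ X y β p q r s)) →
        ∀ᶠ b : ℝ in atTop, p ≠ 1 → q ≠ 1 → p < q → q < r → r < s →
        0 < sb (c4 Γ nw p q r s) * QQ X y (zn m x ξ z h c k b) p q r s := by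
      rintro (h | ⟨h, h'⟩)
      · filter_upwards [stb_lin _ (sb (c4 Γ nw p q r s) * QQ X y β p q r s) h] with b hb _ _ _ _ _
        rw [hZ, stb_ql]
        linarith
      · filter_upwards with b _ _ _ _ _
        rw [hZ, stb_ql, h, zero_mul, zero_add]
        exact h'
    apply red
    by_cases hsn : s < 3 + 6 * m
    · right
      constructor
      · unfold QQ
        rw [hαo p (by omega), hαo q (by omega), hαo r (by omega), hαo s hsn]
        ring
      · have := hSt.t4 p q r s hp1 hq1 hpq hqr hrs hsn
        have e : QQ X y β p q r s = QQ x y z p q r s := by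
          unfold QQ
          rw [hβo p (by omega), hβo q (by omega), hβo r (by omega), hβo s hsn,
            hDo _ _ _ (by omega) (by omega) (by omega), hDo _ _ _ (by omega) (by omega) (by omega),
            hDo _ _ _ (by omega) (by omega) (by omega), hDo _ _ _ (by omega) (by omega) (by omega)]
        rw [e]
        exact this
    obtain ⟨d, hd, rfl⟩ := hnew s (by omega) hs
    by_cases hrn : r < 3 + 6 * m
    · left
      have hc : c4 Γ nw p q r (pt m d) = s3 Γ nw p q r := by
        unfold c4
        rw [if_neg hsN, if_neg hp1, if_neg hq1, if_pos]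
        rw [hgn d hd]
        exact hgo r hrn
      have e : QQ X y α p q r (pt m d) = (X (pt m d) - k / 2) * DD x y p q r := by
        unfold QQ
        rw [hαo p (by omega), hαo q (by omega), hαo r hrn, hDo p q r (by omega) (by omega) hrn]
        have : α (pt m d) = X (pt m d) - k / 2 := if_neg (by unfold pt; omega)
        rw [this]
        ring
      rw [hc, e]
      have h3 := hSt.t3 p q r hp1 hq1 hpq hqr hrn
      have h4 : 0 < X (pt m d) - k / 2 := by
        have := hk d hd
        have := hGA.k0
        linarith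
      have := mul_pos h4 h3
      linarith
    obtain ⟨e, he, rfl⟩ := hnew r (by omega) hr
    have hed : e < d := by unfold pt at hrs; omega
    by_cases hqn : q < 3 + 6 * m
    · left
      have hc : c4 Γ nw p q (pt m e) (pt m d) = decide (lv Γ nw q < lv Γ nw p) := by
        unfold c4
        rw [if_neg hsN, if_neg hp1, if_neg hq1, if_neg (by rw [hgn e he, hgn d hd]; omega), if_pos]
        rw [hgn e he]
        exact hgo q hqn
      have hp := stb_plane X y (k / 2) p q (pt m e) (pt m d)
      have e1 : QQ X y α p q (pt m e) (pt m d) =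
          (k / 2 * hE q - hX x q) * DD X y p (pt m e) (pt m d) -
            (k / 2 * hE p - hX x p) * DD X y q (pt m e) (pt m d) := by
        unfold QQ at hp ⊢
        beta_reduce at hp
        rw [hαo p (by omega), hαo q hqn, hαn, hαn]
        rw [hXX p (by omega), hXX q hqn] at hp
        linarith
      rw [hc, e1]
      exact hGA.q2 p q e d hp1 hq1 hpq hqn hed hd
    obtain ⟨f, hf, rfl⟩ := hnew q (by omega) hq
    have hfe : f < e := by unfold pt at hqr; omega
    by_cases hpn : p < 3 + 6 * m
    · have hc : c4 Γ nw p (pt m f) (pt m e) (pt m d) = !tb4 (tj m) f e d := by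
        obtain ⟨_, l1, t1, n1⟩ := h1.1 m f hf
        obtain ⟨_, l2, t2, n2⟩ := h1.1 m e he
        obtain ⟨_, l3, t3, n3⟩ := h1.1 m d hd
        unfold c4
        rw [if_neg hsN, if_neg hp1, if_neg hq1, if_neg (by rw [hgn e he, hgn d hd]; omega),
          if_neg (by rw [hgn e he, hgn f hf]; omega), if_pos (by rw [hgn f hf]; exact hgo p hpn),
          l1, l2, l3, t3]
      have hp := stb_plane X y (k / 2) p (pt m f) (pt m e) (pt m d)
      have e1 : QQ X y α p (pt m f) (pt m e) (pt m d) =
          (hX x p - k / 2 * hE p) * (c * D3 ξ (fun i => y (pt m i)) f e d) := by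
        rw [← stb_D3 m x ξ y c k f e d]
        unfold QQ at hp ⊢
        beta_reduce at hp
        rw [hαo p hpn, hαn, hαn, hαn]
        rw [hXX p hpn] at hp
        linarith
      rw [hc]
      by_cases hp0 : p = 0
      · right
        subst hp0
        constructor
        · rw [e1]
          unfold hX hE
          simp
        · have e2 : QQ X y β 0 (pt m f) (pt m e) (pt m d) =
              c * (-D3 ξ (fun i => y (pt m i)) f e d + h f * (ξ d - ξ e) - h e * (ξ d - ξ f) +
                h d * (ξ e - ξ f)) := by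
            unfold QQ
            rw [hβo 0 (by omega), hβn, hβn, hβn, hSt.z0, hX', stb_D3, stb_D0, stb_D0, stb_D0]
            ring
          rw [e2]
          have := mul_pos hGA.c0 (hV f e d hfe hed hd)
          linarith
      · left
        rw [e1]
        have hpx : hX x p - k / 2 * hE p = x p - k / 2 := by
          unfold hX hE
          rw [if_neg hp0, if_neg hp0]
          ring
        rw [hpx, stb_sb]
        have h5 := hGA.kx p (by omega) hpn
        have h6 : 0 < k / 2 - x p := by linarith
        have := mul_pos h6 (mul_pos hGA.c0 (hT f e d hfe hed hd))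
        linarith
    obtain ⟨g, hg, rfl⟩ := hnew p (by omega) hp
    have hgf : g < f := by unfold pt at hpq; omega
    right
    have hc : c4 Γ nw (pt m g) (pt m f) (pt m e) (pt m d) = l4 (tj m) g f e d := by
      obtain ⟨_, l0, t0, n0⟩ := h1.1 m g hg
      obtain ⟨_, l1, t1, n1⟩ := h1.1 m f hf
      obtain ⟨_, l2, t2, n2⟩ := h1.1 m e he
      obtain ⟨_, l3, t3, n3⟩ := h1.1 m d hd
      unfold c4
      rw [if_neg hsN, if_neg hp1, if_neg hq1, if_neg (by rw [hgn e he, hgn d hd]; omega),
        if_neg (by rw [hgn e he, hgn f hf]; omega), if_neg (by rw [hgn f hf, hgn g hg]; omega),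
        l0, l1, l2, l3, t3]
    constructor
    · have hp := stb_plane X y (k / 2) (pt m g) (pt m f) (pt m e) (pt m d)
      unfold QQ at hp ⊢
      beta_reduce at hp
      rw [hαn, hαn, hαn, hαn]
      exact hp
    · rw [hc]
      have e2 : QQ X y β (pt m g) (pt m f) (pt m e) (pt m d) =
          c * (-h g * D3 ξ (fun i => y (pt m i)) f e d + h f * D3 ξ (fun i => y (pt m i)) g e d -
            h e * D3 ξ (fun i => y (pt m i)) g f d + h d * D3 ξ (fun i => y (pt m i)) g f e) := by
        unfold QQ
        rw [hβn, hβn, hβn, hβn, hX', stb_D3, stb_D3, stb_D3, stb_D3]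
        ring
      rw [e2]
      have := mul_pos hGA.c0 (hL g f e d hgf hfe hed hd)
      linarith
  obtain ⟨b, hb1, hb2⟩ := ((stb_ev _ _ key).and (eventually_ge_atTop (0 : ℝ))).exists
  refine ⟨b, ?_, ?_, ?_, ?_, T3, ?_⟩
  · rw [hxo 2 (by omega)]
    exact hSt.x2
  · rw [hzo b 0 (by omega)]
    exact hSt.z0
  · intro p q hp hpq hq
    by_cases hqn : q < 3 + 6 * m
    · rw [hxo p (by omega), hxo q hqn]
      exact hSt.xo p q hp hpq hqn
    · obtain ⟨j, hj, rfl⟩ := hnew q (by omega) hq
      by_cases hpn : p < 3 + 6 * m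
      · rw [hxo p hpn]
        have h3 := hGA.kx p hp hpn
        have h4 := hk j hj
        have h5 := hGA.k0
        linarith
      · obtain ⟨i, hi, rfl⟩ := hnew p (by omega) (by omega)
        have hij : i < j := by unfold pt at hpq; omega
        rw [hxn, hxn]
        have := mul_lt_mul_of_pos_left (hξm i j hij hj) hGA.c0
        linarith
  · intro p hp
    by_cases hpn : p < 3 + 6 * m
    · rw [hzo b p hpn]
      exact hSt.zp p hpn
    · obtain ⟨i, hi, rfl⟩ := hnew p (by omega) hp
      rw [hzn]
      have h3 := hk i hi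
      have h4 := hGA.k0
      have h5 : 0 ≤ b * (X (pt m i) - k / 2) := mul_nonneg hb2 (by linarith)
      have := hh i
      linarith
  · intro p q r s hp1 hq1 hpq hqr hrs hs
    exact hb1 p q r s (by omega) (by omega) (by omega) hs hp1 hq1 hpq hqr hrs

end Pool.Agent.Helper54.S4
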