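import Pool.Agent.Helper11.S4.RB4
import Pool.Agent.Helper15.S4.LOC4
import Pool.Agent.Helper2.S4.SLK4
import Pool.Agent.Helper20.S4.CO4
import Pool.Agent.Helper24.S4.HST
import Pool.Agent.Helper25.S4.EF4
import Pool.Agent.Helper3.S4.F4
import Pool.Agent.Helper3.S4.VC4
import Pool.Agent.Helper30.S4.F5
import Pool.Agent.Helper38.S4.ES4
import Pool.Agent.Helper38.S4.F3
import Pool.Agent.Helper38.S4.GI
import Pool.Agent.Helper42.S4.AL4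
import Pool.Agent.Helper42.S4.EV5
import Pool.Agent.Helper44.S4.LV4
import Pool.Agent.Helper45.S4.QS4
import Pool.Agent.Helper51.S4.LL4
import Pool.Agent.Helper52.S4.AD4
import Pool.Agent.Helper52.S4.SL1
import Pool.Agent.Helper53.S4.ET4
import Pool.Agent.Helper54.S4.FLIP
import Pool.Agent.Helper54.S4.GO4
import Pool.Agent.Helper54.S4.REL
import Pool.Agent.Helper54.S4.STB
import Pool.Agent.Helper60.S4.COV4
import Pool.Agent.Helper60.S4.EC4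
import Pool.Agent.Helper61.S4.PT4
import Pool.Agent.Helper63.S4.SND4
import Pool.Agent.Helper7.S4.DQ4
import Pool.Agent.Helper77.S4.AG4
import Pool.Agent.Helper78.S4.F2
import Pool.Agent.Helper79.S4.VAL4
import Pool.Agent.Helper82.S4.ORD4
import Pool.Agent.Helper84.S4.LT0
import Pool.Agent.Helper86.S4.FANS4
import Pool.Agent.Helper86.S4.SCL
import Pool.Agent.Helper92.S4.BW4
import Pool.Agent.Helper92.S4.COMP4
import Pool.Agent.Helper93.S4.F1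
import Pool.Agent.Helper93.S4.LT1
import Pool.Agent.Helper94.S4.STC
import Pool.Agent.Helper94.S4.WI4
import Pool.Agent.Helper96.S4.GI0
import Pool.Agent.Helper96.S4.GI1
import Pool.Agent.Helper96.S4.MO4
import Pool.Agent.Helper96.S4.RT4
import Pool.Agent.Helper97.S4.CV
import Pool.Agent.Helper97.S4.EK4
import Pool.Agent.Helper54.SP.All
import Pool.Agent.Helper54.S4.Main

/-!
All modules of the `SPR_4` project together.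
-/

namespace Pool.Agent.Helper54.S4

open Pool.Agent.Helper54.SP

theorem s4_AD4 : ST_AD4 :=
  st_AD4 Pool.Agent.Helper54.SP.all_ADJ Pool.Agent.Helper54.SP.all_OSP
theorem s4_AL4 : ST_AL4 :=
  st_AL4
theorem s4_AG4 : ST_AG4 :=
  st_AG4 s4_AL4 Pool.Agent.Helper54.SP.all_DSW
theorem s4_BN4 : ST_BN4 :=
  st_BN4
theorem s4_BW4 : ST_BW4 :=
  st_BW4 Pool.Agent.Helper54.SP.all_WMEM
theorem s4_WI4 : ST_WI4 :=
  st_WI4
theorem s4_CO4 : ST_CO4 :=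
  st_CO4 s4_WI4
theorem s4_VAL4 : ST_VAL4 :=
  st_VAL4 s4_WI4
theorem s4_SL1 : ST_SL1 :=
  st_SL1
theorem s4_PT4 : ST_PT4 :=
  st_PT4
theorem s4_LV4 : ST_LV4 :=
  st_LV4 s4_PT4 s4_WI4
theorem s4_SLK4 : ST_SLK4 :=
  st_SLK4 s4_SL1 s4_WI4 s4_LV4 s4_PT4
theorem s4_LOC4 : ST_LOC4 :=
  st_LOC4
theorem s4_LL4 : ST_LL4 :=
  st_LL4
theorem s4_STC : ST_STC :=
  st_STC s4_PT4 s4_LV4
theorem s4_STB : ST_STB :=
  st_STB s4_PT4 s4_LV4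
theorem s4_SCL : ST_SCL :=
  st_SCL s4_LOC4 s4_LL4 s4_STC s4_STB s4_PT4 s4_LV4
theorem s4_DQ4 : ST_DQ4 :=
  st_DQ4 Pool.Agent.Helper54.SP.all_LE1 Pool.Agent.Helper54.SP.all_LE2
theorem s4_HST : ST_HST :=
  st_HST s4_DQ4 s4_LV4 Pool.Agent.Helper54.SP.all_DT3
theorem s4_RB4 : ST_RB4 :=
  st_RB4 s4_PT4 s4_WI4 s4_LV4
theorem s4_EV5 : ST_EV5 :=
  st_EV5
theorem s4_F1 : ST_F1 :=
  st_F1 s4_AL4 s4_EV5 s4_LV4 s4_RB4
theorem s4_F2 : ST_F2 :=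
  st_F2 s4_PT4 s4_AL4 s4_EV5 s4_LV4 s4_RB4
theorem s4_F3' : ST_F3' :=
  st_F3' s4_AL4 s4_EV5 s4_LV4 s4_RB4
theorem s4_GO4 : ST_GO4 :=
  st_GO4 s4_PT4 s4_AL4
theorem s4_GI : ST_GI :=
  st_GI s4_PT4 s4_AL4
theorem s4_F4' : ST_F4' :=
  st_F4' s4_PT4 s4_AL4 s4_EV5 s4_GO4 s4_GI s4_RB4
theorem s4_F5 : ST_F5 :=
  st_F5 s4_PT4 s4_AL4 s4_EV5 s4_GO4 s4_GI s4_LV4 s4_RB4
theorem s4_FANS4 : ST_FANS4 :=
  st_FANS4 s4_F1 s4_F2 s4_F3' s4_F4' s4_F5 s4_AL4 s4_RB4 s4_LV4 s4_PT4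
    Pool.Agent.Helper54.SP.all_ALT Pool.Agent.Helper54.SP.all_MEMF
theorem s4_COV4 : ST_COV4 :=
  st_COV4 s4_PT4
theorem s4_COMP4 : ST_COMP4 :=
  st_COMP4 s4_VAL4 s4_SLK4 s4_SCL s4_HST s4_AG4 s4_AL4 s4_RB4 s4_LV4 s4_FANS4 s4_COV4
    Pool.Agent.Helper54.SP.all_LIFT Pool.Agent.Helper54.SP.all_POLY
theorem s4_CV : ST_CV :=
  st_CV s4_PT4 s4_LV4
theorem s4_EK4 : ST_EK4 :=
  st_EK4 Pool.Agent.Helper54.SP.all_E8
theorem s4_ET4 : ST_ET4 :=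
  st_ET4
theorem s4_ES4 : ST_ES4 :=
  st_ES4 s4_EK4 s4_ET4
theorem s4_EC4 : ST_EC4 :=
  st_EC4 s4_EK4 s4_ES4
theorem s4_EF4 : ST_EF4 :=
  st_EF4 s4_EC4 Pool.Agent.Helper54.SP.all_EU
theorem s4_REL : ST_REL :=
  st_REL
theorem s4_FLIP : ST_FLIP :=
  st_FLIP s4_REL
theorem s4_GI0 : ST_GI4 false :=
  st_GI0
theorem s4_GI1 : ST_GI4 true :=
  st_GI1
theorem s4_VC4 : ST_VC4 :=
  st_VC4 s4_AD4 s4_PT4 Pool.Agent.Helper54.SP.all_BR Pool.Agent.Helper54.SP.all_ADJ0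
theorem s4_LT0 : ST_LT4 false :=
  st_LT0 s4_VC4 s4_AD4 s4_FLIP s4_CV s4_PT4 Pool.Agent.Helper54.SP.all_BR
    Pool.Agent.Helper54.SP.all_OSP
theorem s4_LT1 : ST_LT4 true :=
  st_LT1 s4_VC4 s4_AD4 s4_FLIP s4_CV s4_PT4 Pool.Agent.Helper54.SP.all_BR
    Pool.Agent.Helper54.SP.all_OSP
theorem s4_MO4 : ST_MO4 :=
  st_MO4
theorem s4_ORD4 : ST_ORD4 :=
  st_ORD4 s4_LV4 Pool.Agent.Helper54.SP.all_NORM Pool.Agent.Helper54.SP.all_ADJ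
    Pool.Agent.Helper54.SP.all_HUL Pool.Agent.Helper54.SP.all_MONO Pool.Agent.Helper54.SP.all_LINK
    Pool.Agent.Helper54.SP.all_DT3 Pool.Agent.Helper54.SP.all_BR Pool.Agent.Helper54.SP.all_ADJ0
    Pool.Agent.Helper54.SP.all_OSP
theorem s4_RT4 : ST_RT4 :=
  st_RT4
theorem s4_QS4 : ST_QS4 :=
  st_QS4 s4_MO4 s4_RT4 s4_WI4 s4_LV4 s4_PT4
theorem s4_SND4 : ST_SND4 :=
  st_SND4 s4_FANS4 s4_LT0 s4_LT1 s4_ORD4 s4_GI0 s4_GI1 s4_QS4 s4_CO4 s4_LV4 s4_PT4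
    Pool.Agent.Helper54.SP.all_FAC Pool.Agent.Helper54.SP.all_FMEM Pool.Agent.Helper54.SP.all_OSP
theorem s4_MAIN4 : ST_MAIN4 :=
  st_MAIN4 Pool.Agent.Helper54.SP.all_RD Pool.Agent.Helper54.SP.all_RW
    Pool.Agent.Helper54.SP.all_RS Pool.Agent.Helper54.SP.all_RC Pool.Agent.Helper54.SP.all_WWF
    Pool.Agent.Helper54.SP.all_WS Pool.Agent.Helper54.SP.all_WC s4_BW4 s4_BN4 s4_COMP4 s4_SND4
    Pool.Agent.Helper54.SP.all_FMEM Pool.Agent.Helper54.SP.all_IJ s4_EK4 s4_EF4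
    Pool.Agent.Helper54.SP.all_EI Pool.Agent.Helper54.SP.all_EW Pool.Agent.Helper54.SP.all_EB

end Pool.Agent.Helper54.S4
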