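import Pool.Agent.Helper54.SP.StmtsW

/-!
Realizability of simplicial 4-polytopes: definitions of the construction.

Indices: `0` vertical direction, `1` horizontal direction, `2` origin, then six points for each
of `4 K` half gates (`K` = number of gates of the list `Γ`); half gate `j` belongs to the gate
`j / 4`, to its part `(j % 4) / 2` and has type `j % 2`. Apices `N4 Γ` and `N4 Γ + 1`.
-/

namespace Pool.Agent.Helper54.S4

open Finset Pool.Agent.Helper54.SP

/-! ### determinants as polynomials -/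

/-- homogeneous coordinates of the point `p` (`p ≠ 1`) -/
noncomputable def hX (x : ℕ → ℝ) (p : ℕ) : ℝ := if p = 0 then 0 else x p
noncomputable def hY (y : ℕ → ℝ) (p : ℕ) : ℝ := if p = 0 then 1 else y p
noncomputable def hE (p : ℕ) : ℝ := if p = 0 then 0 else 1

/-- planar determinant of three points different from `1` -/
noncomputable def DD (x y : ℕ → ℝ) (p q r : ℕ) : ℝ :=
  hX x p * (hY y q * hE r - hY y r * hE q) - hY y p * (hX x q * hE r - hX x r * hE q) +
    hE p * (hX x q * hY y r - hX x r * hY y q)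

/-- planar determinant of three affine points -/
noncomputable def D3 (x y : ℕ → ℝ) (a b c : ℕ) : ℝ :=
  (x b - x a) * (y c - y a) - (x c - x a) * (y b - y a)

/-- determinant of four points different from `1` -/
noncomputable def QQ (x y z : ℕ → ℝ) (p q r s : ℕ) : ℝ :=
  -z p * DD x y q r s + z q * DD x y p r s - z r * DD x y p q s + z s * DD x y p q r

/-- the relation of a gate -/
noncomputable def FF (y : ℕ → ℝ) : ℝ := (y 2 - y 0) * (y 3 - y 2) * (y 5 - y 1) * (y 5 - y 4)
noncomputable def FG (y : ℕ → ℝ) : ℝ := (y 2 - y 1) * (y 4 - y 2) * (y 5 - y 0) * (y 5 - y 3)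

/-! ### points, wires, levels -/

/-- group (`0`: directions and origin; `j + 1`: half gate `j`) and label of a point -/
def gr (p : ℕ) : ℕ := (p + 3) / 6
def la (p : ℕ) : ℕ := (p + 3) % 6
/-- the point with label `i` of the half gate `j` -/
def pt (j i : ℕ) : ℕ := 3 + 6 * j + i
/-- number of planar vectors -/
def N4 (Γ : List Gt) : ℕ := 3 + 24 * Γ.length
/-- the gate of a half gate -/
def ga (Γ : List Gt) (j : ℕ) : Gt := Γ.getD (j / 4) (false, 0, 0, 0, 0, 0)
/-- the wire of a label -/
def wi (Γ : List Gt) (nw j i : ℕ) : ℕ :=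
  if i = 0 then 2 * (j / 4) else if i = 1 then 2 * (j / 4) + 1
  else if i = 2 then 2 * Γ.length + (if (ga Γ j).k then 1 else 0)
  else if i = 3 then 2 * Γ.length + 2 + (if j % 4 < 2 then (ga Γ j).u else (ga Γ j).a)
  else if i = 4 then 2 * Γ.length + 2 + (if j % 4 < 2 then (ga Γ j).u' else (ga Γ j).a')
  else 2 * Γ.length + 2 + nw
/-- construction rank -/
def rn (Γ : List Gt) (j : ℕ) : ℕ := 2 * (ga Γ j).c + j % 4 / 2
/-- the label of the output -/
def ou (j : ℕ) : ℕ := if j % 4 < 2 then 0 else 4
/-- does the point lie above its wire? -/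
def pu (j i : ℕ) : Bool := if i = ou j then decide (j % 2 = 1) else decide ((i + j) % 2 = 0)
/-- a bound for the levels -/
def B4 (Γ : List Gt) (nw : ℕ) : ℕ := 2 + (2 * Γ.length + 3 + nw) * (4 * Γ.length)
/-- key of the ordinate -/
def lv (Γ : List Gt) (nw p : ℕ) : ℕ :=
  if p = 0 then B4 Γ nw else if p < 3 then 0
  else 1 + wi Γ nw (gr p - 1) (la p) * (4 * Γ.length) +
    (if pu (gr p - 1) (la p) then 2 * Γ.length + rn Γ (gr p - 1)
      else 2 * Γ.length - 1 - rn Γ (gr p - 1))
/-- type of the half gate of a point -/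
def ty (p : ℕ) : Bool := decide ((gr p - 1) % 2 = 1)

/-! ### sign functions -/

/-- signs of the triples of labels `a < b < c` of a half gate of type `t` -/
def tb4 (t : Bool) (a b c : ℕ) : Bool :=
  if (a = 0 ∧ b = 1 ∧ c = 2) ∨ (a = 1 ∧ b = 3 ∧ c = 5) then t
  else if (a = 0 ∧ b = 4 ∧ c = 5) ∨ (a = 2 ∧ b = 3 ∧ c = 4) then !t
  else decide (¬ (c = 5 ∧ (b = 4 ∨ (b = 3 ∧ a = 2))))

/-- order of the labels in the first lifting -/
def al (t : Bool) (a : ℕ) : ℕ := if t then [0, 1, 2, 3, 5, 4].getD a 0 else [0, 1, 5, 3, 2, 4].getD a 0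

/-- signs of the quadruples of labels `a < b < c < d` of a half gate -/
def l4 (t : Bool) (a b c d : ℕ) : Bool :=
  if al t a ≤ al t d ∧ al t b ≤ al t d ∧ al t c ≤ al t d then tb4 t a b c
  else if al t a ≤ al t c ∧ al t b ≤ al t c then !tb4 t a b d
  else if al t a ≤ al t b then tb4 t a c d
  else !tb4 t b c d

/-- sign of a triple `p < q < r` -/
def s3 (Γ : List Gt) (nw p q r : ℕ) : Bool :=
  if p = 0 then decide (q ≠ 1)
  else if p = 1 then decide (lv Γ nw r < lv Γ nw q)
  else if gr q < gr r then decide (lv Γ nw q < lv Γ nw p)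
  else if gr p < gr q then true
  else tb4 (ty r) (la p) (la q) (la r)

/-- sign of a quadruple `p < q < r < s` after the first lifting -/
def c4 (Γ : List Gt) (nw p q r s : ℕ) : Bool :=
  if s = N4 Γ then s3 Γ nw p q r
  else if p = 1 then !s3 Γ nw q r s
  else if q = 1 then s3 Γ nw p r s
  else if gr r < gr s then s3 Γ nw p q r
  else if gr q < gr r then decide (lv Γ nw q < lv Γ nw p)
  else if gr p < gr q then !tb4 (ty s) (la q) (la r) (la s)
  else l4 (ty s) (la p) (la q) (la r) (la s)

/-- parity of the number of inversions of four numbers -/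
def inv4 (a b c d : ℕ) : Bool :=
  xor (decide (b < a)) (xor (decide (c < a)) (xor (decide (d < a))
    (xor (decide (c < b)) (xor (decide (d < b)) (decide (d < c))))))

/-- alternating extension of a function of increasing quadruples -/
def alt4 (f : ℕ → ℕ → ℕ → ℕ → Bool) (l : List ℕ) : Bool :=
  let a := l.getD 0 0
  let b := l.getD 1 0
  let c := l.getD 2 0
  let d := l.getD 3 0
  xor (inv4 a b c d) (f (min (min a b) (min c d))
    (min (max (min a b) (min c d)) (min (max a b) (max c d)))
    (max (max (min a b) (min c d)) (min (max a b) (max c d))) (max (max a b) (max c d)))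

/-- keys of the second lifting -/
def rb (Γ : List Gt) (nw p : ℕ) : ℕ :=
  if p = N4 Γ + 1 then 4 + 2 * B4 Γ nw
  else if p = N4 Γ then 0
  else if p = 1 then 1
  else if p = 0 then 3 + 2 * B4 Γ nw
  else if p = 2 then 2 + 2 * B4 Γ nw
  else if 2 ≤ la p then 2 + lv Γ nw p
  else 2 + 2 * B4 Γ nw - lv Γ nw p

/-- the sign function after the first lifting -/
def ch4 (Γ : List Gt) (nw : ℕ) (l : List ℕ) : Bool := alt4 (c4 Γ nw) l

/-- the sign function of the polytope -/
def ch5 (Γ : List Gt) (nw : ℕ) (l : List ℕ) : Bool := lexs (rb Γ nw) (ch4 Γ nw) l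

/-- the facets of the polytope -/
def fac4 (Γ : List Gt) (nw : ℕ) : List (List ℕ) := facets (ch5 Γ nw) 4 (N4 Γ + 2)

end Pool.Agent.Helper54.S4
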