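import Pool.Agent.Helper54.S4.Defs

/-!
Statements of the modules of the `SPR_4` project.
-/

namespace Pool.Agent.Helper54.S4

open Finset Pool.Agent.Helper54.SP Pool.Agent.Helper54.Poly

/-! ### Block A: the sign function and its facets -/

/-- type of a half gate -/
def tj (j : ℕ) : Bool := decide (j % 2 = 1)

/-- triangles of a half gate after the first lifting -/
def TT (t : Bool) : List (ℕ × ℕ × ℕ) :=
  if t then [(0, 1, 2), (0, 2, 3), (0, 3, 5), (0, 4, 5), (2, 3, 5)]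
  else [(0, 1, 2), (0, 1, 4), (0, 4, 5), (1, 2, 5), (1, 3, 4), (1, 3, 5), (3, 4, 5)]

/-- flips of a half gate -/
def FL (t : Bool) : List (ℕ × ℕ × ℕ × ℕ) :=
  if t then [(0, 1, 2, 3), (0, 1, 3, 5), (0, 1, 4, 5), (1, 3, 4, 5), (2, 3, 4, 5)]
  else [(1, 2, 3, 5), (1, 2, 3, 4)]

/-- all triangles of a half gate whose orientation is forced -/
def KT (t : Bool) : List (ℕ × ℕ × ℕ) :=
  if t then [(0, 1, 2), (0, 2, 3), (0, 3, 5), (0, 4, 5), (2, 3, 5), (1, 2, 3), (0, 1, 3), (1, 3, 5),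
    (0, 1, 5), (1, 4, 5), (0, 1, 4), (3, 4, 5), (1, 3, 4), (2, 4, 5), (2, 3, 4)]
  else [(0, 1, 2), (0, 1, 4), (0, 4, 5), (1, 2, 5), (1, 3, 4), (1, 3, 5), (3, 4, 5), (2, 3, 5),
    (1, 2, 3), (2, 3, 4), (1, 2, 4)]

/-- consecutive points in the link of the vertical direction after the first lifting -/
def VL (Γ : List Gt) (p q : ℕ) : Prop := 2 ≤ p ∧ q < N4 Γ ∧
  ((la p = 5 ∧ q = p + 1) ∨ (3 ≤ p ∧ la p = 0 ∧ ty p = false ∧ q = p + 5) ∨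
    (3 ≤ p ∧ la p = 0 ∧ ty p = true ∧ q = p + 4) ∨ (3 ≤ p ∧ la p = 4 ∧ ty p = true ∧ q = p + 1))

/-- the distinguished facets satisfy `P` -/
structure Fan4 (Γ : List Gt) (nw : ℕ) (P : List ℕ → Prop) : Prop where
  hf : ∀ p q, Nbr (N4 Γ) (fun p => p ≠ 1) (lv Γ nw) p q → P [1, p, q, N4 Γ]
  vf : ∀ p q, VL Γ p q → P [0, p, q, N4 Γ + 1]
  h01 : P [0, 1, N4 Γ, N4 Γ + 1]
  h02 : P [0, 2, N4 Γ, N4 Γ + 1]
  h12 : P [1, 2, N4 Γ, N4 Γ + 1]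
  tf : ∀ j, j < 4 * Γ.length → ∀ T ∈ TT (tj j),
    P [pt j T.1, pt j T.2.1, pt j T.2.2, N4 Γ + 1]
  ff : ∀ j, j < 4 * Γ.length → ∀ T ∈ FL (tj j),
    P [pt j T.1, pt j T.2.1, pt j T.2.2.1, pt j T.2.2.2]

/-- one-sidedness for the combinatorial sign function -/
def Cst (Γ : List Gt) (nw : ℕ) (f : List ℕ) : Prop :=
  ∀ x y, x < N4 Γ + 2 → y < N4 Γ + 2 → x ∉ f → y ∉ f → ch5 Γ nw (f ++ [x]) = ch5 Γ nw (f ++ [y])

/-- group and label of the points of a half gate -/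
def ST_PT4 : Prop := (∀ j i, i < 6 → gr (pt j i) = j + 1 ∧ la (pt j i) = i ∧
    ty (pt j i) = tj j ∧ 3 ≤ pt j i) ∧
  (∀ p, 3 ≤ p → p = pt (gr p - 1) (la p) ∧ la p < 6 ∧ 1 ≤ gr p) ∧
  (∀ (Γ : List Gt) (p : ℕ), 3 ≤ p → (p < N4 Γ ↔ gr p - 1 < 4 * Γ.length)) ∧
  (∀ p q, p ≤ q → gr p ≤ gr q) ∧
  (∀ p q, 3 ≤ p → gr p = gr q → (p < q ↔ la p < la q)) ∧
  (∀ p, p < 3 → gr p = 0) ∧ ∀ p, 3 ≤ p → 0 < gr p

/-- the wires of a half gate -/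
def ST_WI4 : Prop := ∀ (Γ : List Gt) (nw : ℕ), WF Γ nw → ∀ j, j < 4 * Γ.length →
  (∀ i, i < 5 → wi Γ nw j i < wi Γ nw j (i + 1)) ∧ wi Γ nw j 5 < 2 * Γ.length + 3 + nw ∧
  rn Γ j < 2 * Γ.length ∧ wi Γ nw j 1 < 2 * Γ.length ∧ 2 * Γ.length ≤ wi Γ nw j 2 ∧
  ga Γ j ∈ Γ ∧
  (∀ j', j' < 4 * Γ.length → rn Γ j = rn Γ j' → j / 2 = j' / 2) ∧
  (∀ j', j / 2 = j' / 2 → (∀ i, wi Γ nw j i = wi Γ nw j' i) ∧ rn Γ j = rn Γ j' ∧ ou j = ou j' ∧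
    (j ≠ j' → ∀ i, pu j i = !pu j' i)) ∧
  (∀ j' i, j' < 4 * Γ.length → i < 6 → wi Γ nw j' i = wi Γ nw j (ou j) →
    (j / 2 = j' / 2 ∧ i = ou j) ∨ (rn Γ j < rn Γ j' ∧ i ≠ ou j'))

/-- levels -/
def ST_LV4 : Prop := ∀ (Γ : List Gt) (nw : ℕ), WF Γ nw →
  (∀ p, p < N4 Γ → p ≠ 0 → lv Γ nw p < lv Γ nw 0) ∧
  (∀ p, 3 ≤ p → p < N4 Γ → 0 < lv Γ nw p) ∧ lv Γ nw 2 = 0 ∧
  (∀ p q, p ≠ 1 → q ≠ 1 → p < N4 Γ → q < N4 Γ → lv Γ nw p = lv Γ nw q → p = q) ∧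
  (∀ p q, 3 ≤ p → p < q → q < N4 Γ → gr p = gr q → lv Γ nw p < lv Γ nw q) ∧
  (∀ p q, 3 ≤ p → 3 ≤ q → p < N4 Γ → q < N4 Γ →
    wi Γ nw (gr p - 1) (la p) < wi Γ nw (gr q - 1) (la q) → lv Γ nw p < lv Γ nw q)

/-- keys of the second lifting -/
def ST_RB4 : Prop := ∀ (Γ : List Gt) (nw : ℕ), WF Γ nw →
  (∀ i j, i ≤ N4 Γ + 1 → j ≤ N4 Γ + 1 → rb Γ nw i = rb Γ nw j → i = j) ∧
  (∀ i, i < N4 Γ + 1 → rb Γ nw i < rb Γ nw (N4 Γ + 1)) ∧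
  rb Γ nw (N4 Γ) = 0 ∧ rb Γ nw 1 = 1 ∧ (∀ p, p < N4 Γ → p ≠ 1 → 1 < rb Γ nw p) ∧
  (∀ p q r, p ≠ 1 → q ≠ 1 → r ≠ 1 → p < N4 Γ → q < N4 Γ → r < N4 Γ →
    lv Γ nw p < lv Γ nw q → lv Γ nw q < lv Γ nw r →
    ¬ (rb Γ nw p < rb Γ nw q ∧ rb Γ nw r < rb Γ nw q)) ∧
  (∀ p q, 3 ≤ p → 3 ≤ q → p < N4 Γ → q < N4 Γ → gr p = gr q →
    (rb Γ nw p < rb Γ nw q ↔
      [5, 4, 0, 1, 2, 3].getD (la p) 0 < [5, 4, 0, 1, 2, 3].getD (la q) 0))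

/-- the alternating extension alternates, and its values on increasing lists -/
def ST_AL4 : Prop := ∀ (f : ℕ → ℕ → ℕ → ℕ → Bool) (n : ℕ), Alt 4 n (alt4 f) ∧
  (∀ a b c d, a < b → b < c → c < d → alt4 f [a, b, c, d] = f a b c d) ∧
  (∀ a b c d, a < b → b < c → d < a → alt4 f [a, b, c, d] = !f d a b c) ∧
  (∀ a b c d, a < b → b < c → a < d → d < b → alt4 f [a, b, c, d] = f a d b c) ∧
  (∀ a b c d, a < b → b < c → b < d → d < c → alt4 f [a, b, c, d] = !f a b d c)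

/-- evaluation of the second lifting at a list of five elements -/
def ST_EV5 : Prop := ∀ (Γ : List Gt) (nw a b c d e : ℕ),
  (rb Γ nw b < rb Γ nw a → rb Γ nw c < rb Γ nw a → rb Γ nw d < rb Γ nw a →
    rb Γ nw e < rb Γ nw a → ch5 Γ nw [a, b, c, d, e] = ch4 Γ nw [b, c, d, e]) ∧
  (rb Γ nw a < rb Γ nw b → rb Γ nw c < rb Γ nw b → rb Γ nw d < rb Γ nw b →
    rb Γ nw e < rb Γ nw b → ch5 Γ nw [a, b, c, d, e] = !ch4 Γ nw [a, c, d, e]) ∧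
  (rb Γ nw a < rb Γ nw c → rb Γ nw b < rb Γ nw c → rb Γ nw d < rb Γ nw c →
    rb Γ nw e < rb Γ nw c → ch5 Γ nw [a, b, c, d, e] = ch4 Γ nw [a, b, d, e]) ∧
  (rb Γ nw a < rb Γ nw d → rb Γ nw b < rb Γ nw d → rb Γ nw c < rb Γ nw d →
    rb Γ nw e < rb Γ nw d → ch5 Γ nw [a, b, c, d, e] = !ch4 Γ nw [a, b, c, e]) ∧
  (rb Γ nw a < rb Γ nw e → rb Γ nw b < rb Γ nw e → rb Γ nw c < rb Γ nw e →
    rb Γ nw d < rb Γ nw e → ch5 Γ nw [a, b, c, d, e] = ch4 Γ nw [a, b, c, d])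

/-- three points of a half gate and a point outside -/
def ST_GO4 : Prop := ∀ (Γ : List Gt) (nw j a b c x : ℕ), j < 4 * Γ.length → a < b →
  b < c → c < 6 → x ≤ N4 Γ → (x = N4 Γ ∨ gr x ≠ j + 1) →
  ch4 Γ nw [pt j a, pt j b, pt j c, x] = tb4 (tj j) a b c

/-- four points of a half gate -/
def ST_GI : Prop := ∀ (Γ : List Gt) (nw j a b c d : ℕ), j < 4 * Γ.length → a < b →
  b < c → c < d → d < 6 → ch4 Γ nw [pt j a, pt j b, pt j c, pt j d] = l4 (tj j) a b c d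

def ST_F1 : Prop := ∀ (Γ : List Gt) (nw : ℕ), WF Γ nw → ∀ p q,
  Nbr (N4 Γ) (fun p => p ≠ 1) (lv Γ nw) p q → Cst Γ nw [1, p, q, N4 Γ]

def ST_F2 : Prop := ∀ (Γ : List Gt) (nw : ℕ), WF Γ nw → ∀ p q, VL Γ p q →
  Cst Γ nw [0, p, q, N4 Γ + 1]

def ST_F3' : Prop := ∀ (Γ : List Gt) (nw : ℕ), WF Γ nw → Cst Γ nw [0, 1, N4 Γ, N4 Γ + 1] ∧
  Cst Γ nw [0, 2, N4 Γ, N4 Γ + 1] ∧ Cst Γ nw [1, 2, N4 Γ, N4 Γ + 1]

def ST_F4' : Prop := ∀ (Γ : List Gt) (nw : ℕ), WF Γ nw → ∀ j, j < 4 * Γ.length →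
  ∀ T ∈ TT (tj j), Cst Γ nw [pt j T.1, pt j T.2.1, pt j T.2.2, N4 Γ + 1]

def ST_F5 : Prop := ∀ (Γ : List Gt) (nw : ℕ), WF Γ nw → ∀ j, j < 4 * Γ.length →
  ∀ T ∈ FL (tj j), Cst Γ nw [pt j T.1, pt j T.2.1, pt j T.2.2.1, pt j T.2.2.2]

/-- the distinguished facets are in the list -/
def ST_FANS4 : Prop := ∀ (Γ : List Gt) (nw : ℕ), WF Γ nw →
  Fan4 Γ nw (fun g => ∃ f ∈ fac4 Γ nw, f.Perm g)

/-- every vertex lies in a facet -/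
def ST_COV4 : Prop := ∀ (Γ : List Gt) (nw : ℕ),
  Fan4 Γ nw (fun g => ∃ f ∈ fac4 Γ nw, f.Perm g) →
  ∀ i, i < N4 Γ + 2 → ∃ f ∈ fac4 Γ nw, i ∈ f

/-! ### Block B: completeness -/

/-- exact values of all wires of the construction -/
def ST_VAL4 : Prop := ∀ (Γ : List Gt) (nw : ℕ) (v : ℕ → ℝ), WF Γ nw → Nice Γ nw v →
  ∃ V : ℕ → ℝ, (∀ z z', z < z' → z' ≤ 2 * Γ.length + 2 + nw → V z < V z') ∧
    ∀ j, j < 4 * Γ.length → FF (fun i => V (wi Γ nw j i)) = FG (fun i => V (wi Γ nw j i))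

/-- slacks for one gate -/
def ST_SL1 : Prop := ∀ (v : ℕ → ℝ) (e : ℕ), (∀ i, i < 5 → v i < v (i + 1)) → FF v = FG v →
  ∀ u : ℝ, 0 < u → ∃ a b : ℝ, 0 < a ∧ a < b ∧ b < u ∧ ∀ j, j % 4 / 2 = e →
    ((j % 2 = 1 → FF (fun i => v i + (if pu j i then 1 else -1) * (if i = ou j then b else a)) <
      FG (fun i => v i + (if pu j i then 1 else -1) * (if i = ou j then b else a))) ∧
    (j % 2 = 0 → FG (fun i => v i + (if pu j i then 1 else -1) * (if i = ou j then b else a)) <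
      FF (fun i => v i + (if pu j i then 1 else -1) * (if i = ou j then b else a))))

/-- ordinates of the points -/
structure YOK (Γ : List Gt) (nw : ℕ) (y : ℕ → ℝ) : Prop where
  y2 : y 2 = 0
  yo : ∀ p q, 2 ≤ p → 2 ≤ q → p < N4 Γ → q < N4 Γ → lv Γ nw p < lv Γ nw q → y p < y q
  g1 : ∀ j, j < 4 * Γ.length → j % 2 = 1 → FF (fun i => y (pt j i)) < FG (fun i => y (pt j i))
  g0 : ∀ j, j < 4 * Γ.length → j % 2 = 0 → FG (fun i => y (pt j i)) < FF (fun i => y (pt j i))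

def ST_SLK4 : Prop := ∀ (Γ : List Gt) (nw : ℕ) (V : ℕ → ℝ), WF Γ nw →
  (∀ z z', z < z' → z' ≤ 2 * Γ.length + 2 + nw → V z < V z') →
  (∀ j, j < 4 * Γ.length → FF (fun i => V (wi Γ nw j i)) = FG (fun i => V (wi Γ nw j i))) →
  ∃ y : ℕ → ℝ, YOK Γ nw y

/-- the six points of a half gate -/
def ST_LOC4 : Prop := ∀ (t : Bool) (y : ℕ → ℝ), (∀ i, i < 5 → y i < y (i + 1)) →
  (t = true → FF y < FG y) → (t = false → FG y < FF y) → ∃ ξ : ℕ → ℝ, 0 < ξ 0 ∧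
    (∀ i, i < 5 → ξ i < ξ (i + 1)) ∧ ∀ a b c, a < b → b < c → c < 6 →
      0 < sb (tb4 t a b c) * D3 ξ y a b c

/-- heights for the six points of a half gate -/
def ST_LL4 : Prop := ∀ (t : Bool) (ξ y : ℕ → ℝ),
  (∀ a b c, a < b → b < c → c < 6 → 0 < sb (tb4 t a b c) * D3 ξ y a b c) →
  ∃ h : ℕ → ℝ, (∀ i, 0 < h i) ∧
    (∀ a b c d, a < b → b < c → c < d → d < 6 → 0 < sb (l4 t a b c d) *
      (-h a * D3 ξ y b c d + h b * D3 ξ y a c d - h c * D3 ξ y a b d + h d * D3 ξ y a b c)) ∧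
    ∀ a b c, a < b → b < c → c < 6 → 0 < sb (!tb4 t a b c) *
      (-D3 ξ y a b c + h a * (ξ c - ξ b) - h b * (ξ c - ξ a) + h c * (ξ b - ξ a))

/-- the configuration of the first `m` half gates -/
structure St (Γ : List Gt) (nw : ℕ) (y : ℕ → ℝ) (m : ℕ) (x z : ℕ → ℝ) : Prop where
  x2 : x 2 = 0
  z0 : z 0 = 1
  xo : ∀ p q, 2 ≤ p → p < q → q < 3 + 6 * m → x p < x q
  zp : ∀ p, p < 3 + 6 * m → 0 < z p
  t3 : ∀ p q r, p ≠ 1 → q ≠ 1 → p < q → q < r → r < 3 + 6 * m →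
    0 < sb (s3 Γ nw p q r) * DD x y p q r
  t4 : ∀ p q r s, p ≠ 1 → q ≠ 1 → p < q → q < r → r < s → s < 3 + 6 * m →
    0 < sb (c4 Γ nw p q r s) * QQ x y z p q r s

/-- abscissas and heights with one more half gate -/
noncomputable def xn (m : ℕ) (x ξ : ℕ → ℝ) (c k : ℝ) (p : ℕ) : ℝ :=
  if p < 3 + 6 * m then x p else k + c * ξ (p - (3 + 6 * m))
noncomputable def zn (m : ℕ) (x ξ z h : ℕ → ℝ) (c k b : ℝ) (p : ℕ) : ℝ :=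
  if p < 3 + 6 * m then z p else b * (xn m x ξ c k p - k / 2) + h (p - (3 + 6 * m))

/-- conditions on the position of a new half gate -/
structure GA (Γ : List Gt) (nw : ℕ) (y : ℕ → ℝ) (m : ℕ) (x ξ : ℕ → ℝ) (c k : ℝ) : Prop where
  c0 : 0 < c
  k0 : 0 < k
  kx : ∀ p, 2 ≤ p → p < 3 + 6 * m → 2 * x p < k
  p1 : ∀ p q i, p ≠ 1 → q ≠ 1 → p < q → q < 3 + 6 * m → i < 6 →
    0 < sb (decide (lv Γ nw q < lv Γ nw p)) * DD (xn m x ξ c k) y p q (pt m i)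
  p2 : ∀ p i j, p ≠ 1 → p < 3 + 6 * m → i < j → j < 6 →
    0 < DD (xn m x ξ c k) y p (pt m i) (pt m j)
  q2 : ∀ p q i j, p ≠ 1 → q ≠ 1 → p < q → q < 3 + 6 * m → i < j → j < 6 →
    0 < sb (decide (lv Γ nw q < lv Γ nw p)) *
      ((k / 2 * hE q - hX x q) * DD (xn m x ξ c k) y p (pt m i) (pt m j) -
        (k / 2 * hE p - hX x p) * DD (xn m x ξ c k) y q (pt m i) (pt m j))

/-- choice of the scale and of the position -/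
def ST_STC : Prop := ∀ (Γ : List Gt) (nw : ℕ) (y : ℕ → ℝ), WF Γ nw → YOK Γ nw y →
  ∀ (m : ℕ) (x z ξ : ℕ → ℝ), m < 4 * Γ.length → St Γ nw y m x z → 0 < ξ 0 →
  (∀ i, i < 5 → ξ i < ξ (i + 1)) → ∃ c k : ℝ, GA Γ nw y m x ξ c k

/-- choice of the slope -/
def ST_STB : Prop := ∀ (Γ : List Gt) (nw : ℕ) (y : ℕ → ℝ), WF Γ nw → YOK Γ nw y →
  ∀ (m : ℕ) (x z ξ h : ℕ → ℝ) (c k : ℝ), m < 4 * Γ.length → St Γ nw y m x z → 0 < ξ 0 →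
  (∀ i, i < 5 → ξ i < ξ (i + 1)) → GA Γ nw y m x ξ c k → (∀ i, 0 < h i) →
  (∀ a b c, a < b → b < c → c < 6 → 0 < sb (tb4 (tj m) a b c) * D3 ξ (fun i => y (pt m i)) a b c) →
  (∀ a b c d, a < b → b < c → c < d → d < 6 → 0 < sb (l4 (tj m) a b c d) *
    (-h a * D3 ξ (fun i => y (pt m i)) b c d + h b * D3 ξ (fun i => y (pt m i)) a c d -
      h c * D3 ξ (fun i => y (pt m i)) a b d + h d * D3 ξ (fun i => y (pt m i)) a b c)) →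
  (∀ a b c, a < b → b < c → c < 6 → 0 < sb (!tb4 (tj m) a b c) *
    (-D3 ξ (fun i => y (pt m i)) a b c + h a * (ξ c - ξ b) - h b * (ξ c - ξ a) +
      h c * (ξ b - ξ a))) →
  ∃ b : ℝ, St Γ nw y (m + 1) (xn m x ξ c k) (zn m x ξ z h c k b)

/-- the configuration of all half gates -/
def ST_SCL : Prop := ∀ (Γ : List Gt) (nw : ℕ) (y : ℕ → ℝ), WF Γ nw → YOK Γ nw y →
  ∃ x z : ℕ → ℝ, St Γ nw y (4 * Γ.length) x z

/-- the lifted vectors including the horizontal direction and the apex -/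
noncomputable def qv (n : ℕ) (x y z : ℕ → ℝ) (p j : ℕ) : ℝ :=
  if p < n then (if j < 3 then pl x y p j else z p) else (if j = 3 then 1 else 0)

/-- the determinants as polynomials -/
def ST_DQ4 : Prop := ∀ (n : ℕ) (x y z : ℕ → ℝ),
  (∀ p q r, p ≠ 1 → q ≠ 1 → r ≠ 1 → dt 3 (pl x y) [p, q, r] = DD x y p q r) ∧
  (∀ p q r s, p < n → q < n → r < n → s < n → dt 4 (qv n x y z) [p, q, r, s] =
    -z p * dt 3 (pl x y) [q, r, s] + z q * dt 3 (pl x y) [p, r, s] -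
      z r * dt 3 (pl x y) [p, q, s] + z s * dt 3 (pl x y) [p, q, r]) ∧
  (∀ p q r, p < n → q < n → r < n → dt 4 (qv n x y z) [p, q, r, n] = dt 3 (pl x y) [p, q, r])

/-- signs of increasing quadruples -/
def ST_HST : Prop := ∀ (Γ : List Gt) (nw : ℕ) (y : ℕ → ℝ), WF Γ nw → YOK Γ nw y →
  ∀ x z : ℕ → ℝ, St Γ nw y (4 * Γ.length) x z → ∃ z' : ℕ → ℝ, (∀ p, p < N4 Γ → 0 < z' p) ∧
    ∀ p q r s, p < q → q < r → r < s → s ≤ N4 Γ →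
      0 < sb (c4 Γ nw p q r s) * dt 4 (qv (N4 Γ) x y z') [p, q, r, s]

/-- signs of all quadruples -/
def ST_AG4 : Prop := ∀ (Γ : List Gt) (nw : ℕ) (x y z : ℕ → ℝ),
  (∀ p q r s, p < q → q < r → r < s → s ≤ N4 Γ →
      0 < sb (c4 Γ nw p q r s) * dt 4 (qv (N4 Γ) x y z) [p, q, r, s]) →
  Agree 4 (qv (N4 Γ) x y z) (N4 Γ + 1) (ch4 Γ nw)

/-- completeness of the geometric part -/
def ST_COMP4 : Prop := ∀ (Γ : List Gt) (nw : ℕ) (v : ℕ → ℝ), WF Γ nw →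
  Nice Γ nw v → Realizable 4 (N4 Γ + 2) (fac4 Γ nw)

/-! ### Block C: soundness -/

/-- the points `p` and `a` lie in a common facet -/
def Cov4 (N : ℕ) (X : ℕ → ℕ → ℝ) (p a : ℕ) : Prop :=
  ∃ g : List ℕ, g.length = 4 ∧ g.Nodup ∧ p ∈ g ∧ a ∈ g ∧ OS 5 X (N + 2) g

/-- the linear relation between six vectors -/
def ST_REL : Prop := ∀ (X : ℕ → ℕ → ℝ) (a b c d e f : ℕ) (g : List ℕ), g.length = 4 →
  dt 5 X [b, c, d, e, f] * dt 5 X (g ++ [a]) - dt 5 X [a, c, d, e, f] * dt 5 X (g ++ [b]) +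
    dt 5 X [a, b, d, e, f] * dt 5 X (g ++ [c]) - dt 5 X [a, b, c, e, f] * dt 5 X (g ++ [d]) +
    dt 5 X [a, b, c, d, f] * dt 5 X (g ++ [e]) - dt 5 X [a, b, c, d, e] * dt 5 X (g ++ [f]) = 0

/-- a flip preserves the orientation -/
def ST_FLIP : Prop := ∀ (N : ℕ) (X : ℕ → ℕ → ℝ) (p q r s : ℕ), [p, q, r, s].Nodup → p < N →
  q < N → r < N → s < N → OS 5 X (N + 2) [p, q, r, s] → Cov4 N X p N → Cov4 N X p (N + 1) →
  Cov4 N X r N → Cov4 N X r (N + 1) → 0 < br N 2 X p q r * br N 2 X p r s →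
  0 < br N 2 X p q r * br N 2 X q r s ∧ 0 < br N 2 X p q r * br N 2 X p q s

/-- every point lies in a facet with each apex -/
def ST_CV : Prop := ∀ (Γ : List Gt) (nw : ℕ) (X : ℕ → ℕ → ℝ), WF Γ nw →
  Fan4 Γ nw (OS 5 X (N4 Γ + 2)) → ∀ p, 3 ≤ p → p < N4 Γ →
  Cov4 (N4 Γ) X p (N4 Γ) ∧ Cov4 (N4 Γ) X p (N4 Γ + 1)

/-- two facets with the second apex and a common edge -/
def ST_AD4 : Prop := ∀ (N : ℕ) (X : ℕ → ℕ → ℝ) (o p q r : ℕ) (f g : List ℕ),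
  [o, p, q, r].Nodup → o < N → p < N → q < N → r < N → f.Perm [o, p, q, N + 1] →
  g.Perm [o, q, r, N + 1] → OS 5 X (N + 2) f → OS 5 X (N + 2) g →
  0 < br N 2 X o p q * br N 2 X o q r

/-- orientation along the link of the vertical direction -/
def ST_VC4 : Prop := ∀ (Γ : List Gt) (nw : ℕ) (X : ℕ → ℕ → ℝ), 0 < Γ.length →
  Fan4 Γ nw (OS 5 X (N4 Γ + 2)) → ∀ p q, VL Γ p q →
  0 < br (N4 Γ) 2 X 0 p q * br (N4 Γ) 2 X 0 2 3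

/-- forced orientations in a half gate -/
def ST_LT4 (t : Bool) : Prop := ∀ (Γ : List Gt) (nw : ℕ) (X : ℕ → ℕ → ℝ), WF Γ nw →
  Fan4 Γ nw (OS 5 X (N4 Γ + 2)) → ∀ j, j < 4 * Γ.length → tj j = t → ∀ T ∈ KT t,
    0 < sb (tb4 t T.1 T.2.1 T.2.2) * (br (N4 Γ) 2 X (pt j T.1) (pt j T.2.1) (pt j T.2.2) *
      br (N4 Γ) 2 X 0 2 3)

/-- planar points with the prescribed orders and orientations -/
structure Ord4 (Γ : List Gt) (nw : ℕ) (x y : ℕ → ℝ) : Prop where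
  yo : ∀ p q, 2 ≤ p → 2 ≤ q → p < N4 Γ → q < N4 Γ → lv Γ nw p < lv Γ nw q → y p < y q
  tr : ∀ j, j < 4 * Γ.length → ∀ T ∈ KT (tj j), 0 < sb (tb4 (tj j) T.1 T.2.1 T.2.2) *
    D3 (fun i => x (pt j i)) (fun i => y (pt j i)) T.1 T.2.1 T.2.2

def ST_ORD4 : Prop := ∀ (Γ : List Gt) (nw : ℕ) (X : ℕ → ℕ → ℝ), WF Γ nw → 0 < Γ.length →
  Fan4 Γ nw (OS 5 X (N4 Γ + 2)) →
  (∀ j, j < 4 * Γ.length → ∀ T ∈ KT (tj j), 0 < sb (tb4 (tj j) T.1 T.2.1 T.2.2) *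
    (br (N4 Γ) 2 X (pt j T.1) (pt j T.2.1) (pt j T.2.2) * br (N4 Γ) 2 X 0 2 3)) →
  ∃ x y : ℕ → ℝ, Ord4 Γ nw x y

/-- the inequality of a half gate -/
def ST_GI4 (t : Bool) : Prop := ∀ x y : ℕ → ℝ, (∀ i, i < 5 → y i < y (i + 1)) →
  (∀ T ∈ KT t, 0 < sb (tb4 t T.1 T.2.1 T.2.2) * D3 x y T.1 T.2.1 T.2.2) →
  (t = true → FF y < FG y) ∧ (t = false → FG y < FF y)

/-- monotonicity of the relation -/
def ST_MO4 : Prop := ∀ y v : ℕ → ℝ,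
  (∀ i, i < 5 → y i < y (i + 1) ∧ y i < v (i + 1) ∧ v i < y (i + 1) ∧ v i < v (i + 1)) →
  ((∀ i, i < 6 → (i % 2 = 0 → y i ≤ v i) ∧ (i % 2 = 1 → v i ≤ y i)) → FF y < FG y → FF v < FG v) ∧
  ((∀ i, i < 6 → (i % 2 = 0 → v i ≤ y i) ∧ (i % 2 = 1 → y i ≤ v i)) → FG y < FF y → FG v < FF v)

/-- a root between two values -/
def ST_RT4 : Prop := ∀ (v : ℕ → ℝ) (o : ℕ) (r r' : ℝ), r < r' →
  FG (Function.update v o r) < FF (Function.update v o r) →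
  FF (Function.update v o r') < FG (Function.update v o r') →
  ∃ s, r < s ∧ s < r' ∧ FF (Function.update v o s) = FG (Function.update v o s)

/-- the wire is used -/
def At4 (Γ : List Gt) (nw z : ℕ) : Prop := ∃ j, j < 4 * Γ.length ∧ ∃ i, i < 6 ∧ z = wi Γ nw j i

/-- orders and inequalities give exact values -/
def ST_QS4 : Prop := ∀ (Γ : List Gt) (nw : ℕ) (y : ℕ → ℝ), WF Γ nw →
  (∀ p q, 2 ≤ p → 2 ≤ q → p < N4 Γ → q < N4 Γ → lv Γ nw p < lv Γ nw q → y p < y q) →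
  (∀ j, j < 4 * Γ.length → (j % 2 = 1 → FF (fun i => y (pt j i)) < FG (fun i => y (pt j i))) ∧
    (j % 2 = 0 → FG (fun i => y (pt j i)) < FF (fun i => y (pt j i)))) →
  ∃ V : ℕ → ℝ, (∀ z z', At4 Γ nw z → At4 Γ nw z' → z < z' → V z < V z') ∧
    ∀ j, j < 4 * Γ.length → FF (fun i => V (wi Γ nw j i)) = FG (fun i => V (wi Γ nw j i))

/-- there are gates of both types -/
def Both (Γ : List Gt) : Prop := (∃ g ∈ Γ, g.k = true) ∧ ∃ g ∈ Γ, g.k = false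

/-- the projective change of coordinates -/
def ST_CO4 : Prop := ∀ (Γ : List Gt) (nw : ℕ) (V : ℕ → ℝ), WF Γ nw → Both Γ →
  (∀ z z', At4 Γ nw z → At4 Γ nw z' → z < z' → V z < V z') →
  (∀ j, j < 4 * Γ.length → FF (fun i => V (wi Γ nw j i)) = FG (fun i => V (wi Γ nw j i))) →
  ∃ v : ℕ → ℝ, Sol Γ v

/-- soundness of the geometric part -/
def ST_SND4 : Prop := ∀ (Γ : List Gt) (nw : ℕ), WF Γ nw → Both Γ →
  Realizable 4 (N4 Γ + 2) (fac4 Γ nw) → ∃ v, Sol Γ v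

/-- gates of both types in the wiring -/
def ST_BW4 : Prop := ∀ (K : ℕ) (Q : List (List (ℕ × ℕ))), Q ≠ [] → Both (wiring K Q)

/-- the bilinear system is not empty -/
def ST_BN4 : Prop := ∀ E : List Be, bil E ≠ []

/-! ### Block E: polynomial time -/

def ST_EK4 : Prop := ∀ {α : Type} [TEnc α] (Γ : α → List Gt) (nw p : α → ℕ), PT Γ → PT nw →
  PT p → PT (fun a => gr (p a)) ∧ PT (fun a => la (p a)) ∧ PT (fun a => ty (p a)) ∧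
  PT (fun a => lv (Γ a) (nw a) (p a)) ∧ PT (fun a => rb (Γ a) (nw a) (p a)) ∧
  PT (fun a => N4 (Γ a))

/-- the tables -/
def ST_ET4 : Prop := ∀ {α : Type} [TEnc α] (t : α → Bool) (a b c d : α → ℕ), PT t → PT a →
  PT b → PT c → PT d → PT (fun i => tb4 (t i) (a i) (b i) (c i)) ∧
  PT (fun i => l4 (t i) (a i) (b i) (c i) (d i))

def ST_ES4 : Prop := ∀ {α : Type} [TEnc α] (Γ : α → List Gt) (nw p q r s : α → ℕ), PT Γ →
  PT nw → PT p → PT q → PT r → PT s → PT (fun a => c4 (Γ a) (nw a) (p a) (q a) (r a) (s a))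

def ST_EC4 : Prop := ∀ {α : Type} [TEnc α] (Γ : α → List Gt) (nw : α → ℕ) (l : α → List ℕ),
  PT Γ → PT nw → PT l → PT (fun a => ch5 (Γ a) (nw a) (l a))

def ST_EF4 : Prop := ∀ {α : Type} [TEnc α] (Γ : α → List Gt) (nw : α → ℕ), PT Γ → PT nw →
  PT (fun a => fac4 (Γ a) (nw a))

/-! ### the result -/

/-- hardness in dimension four -/
def ST_MAIN4 : Prop := ∀ A : Set (List Bool), PolyRed A ETRL → PolyRed A (SPR 4)

end Pool.Agent.Helper54.S4
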